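import Pool.Agent.Helper54.FP.Inst

/-!
# FP-10: the maps `lm`, `c1`, `c2`, `φ1`, `φ2`, `α2`, `β1` on generators
-/

set_option autoImplicit false
set_option linter.unusedVariables false
set_option linter.unusedSectionVars false

namespace Pool.Agent.Helper54.FP

theorem algebraMap_X_eq {k : Type} [CommRing k] :
    algebraMap (PowerSeries k) (LaurentSeries k) PowerSeries.X = HahnSeries.single 1 1 := by
  rw [LaurentSeries.coe_algebraMap, HahnSeries.ofPowerSeries_X]

theorem algebraMap_X_pow_eq {k : Type} [CommRing k] (m : ℕ) :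
    algebraMap (PowerSeries k) (LaurentSeries k) (PowerSeries.X ^ m)
      = HahnSeries.single (m : ℤ) 1 := by
  rw [LaurentSeries.coe_algebraMap, HahnSeries.ofPowerSeries_X_pow]

theorem algebraMap_C_eq {k : Type} [CommRing k] (r : k) :
    algebraMap (PowerSeries k) (LaurentSeries k) (PowerSeries.C r) = HahnSeries.C r := by
  rw [LaurentSeries.coe_algebraMap, HahnSeries.ofPowerSeries_C]

theorem algebraMap_coeff {k : Type} [CommRing k] (F : PowerSeries k) (n : ℤ) :
    (algebraMap (PowerSeries k) (LaurentSeries k) F).coeff n =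
      if n < 0 then 0 else PowerSeries.coeff n.natAbs F := by
  rw [LaurentSeries.coe_algebraMap]
  exact PowerSeries.coeff_coe F n

/-- a ring homomorphism from the Laurent series is determined by its values on power series -/
theorem laurent_hom_ext {k S : Type} [CommRing k] [CommRing S] {f g : LaurentSeries k →+* S}
    (h : ∀ F : PowerSeries k, f (algebraMap (PowerSeries k) (LaurentSeries k) F) =
      g (algebraMap (PowerSeries k) (LaurentSeries k) F)) : f = g := by
  apply IsLocalization.ringHom_ext (Submonoid.powers (PowerSeries.X : PowerSeries k))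
  ext F
  exact h F

theorem lm_algebraMap {k L : Type} [CommRing k] [CommRing L] (ι : k →+* L) (F : PowerSeries k) :
    lm ι (algebraMap (PowerSeries k) (LaurentSeries k) F) =
      algebraMap (PowerSeries L) (LaurentSeries L) (PowerSeries.map ι F) := by
  rw [lm, lK_algebraMap]; rfl

theorem lm_coeff {k L : Type} [CommRing k] [CommRing L] (ι : k →+* L) (f : LaurentSeries k)
    (n : ℤ) : (lm ι f).coeff n = ι (f.coeff n) := by
  obtain ⟨⟨F, ⟨_, m, rfl⟩⟩, h⟩ :=
    IsLocalization.surj (Submonoid.powers (PowerSeries.X : PowerSeries k)) f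
  dsimp only at h
  have h2 := congrArg (lm ι) h
  rw [map_mul, lm_algebraMap, lm_algebraMap, map_pow, PowerSeries.map_X, algebraMap_X_pow_eq] at h2
  rw [algebraMap_X_pow_eq] at h
  have e1 : f.coeff n = (algebraMap (PowerSeries k) (LaurentSeries k) F).coeff (n + m) := by
    rw [← h, HahnSeries.coeff_mul_single_add, mul_one]
  have e2 : (lm ι f).coeff n =
      (algebraMap (PowerSeries L) (LaurentSeries L) (PowerSeries.map ι F)).coeff (n + m) := by
    rw [← h2, HahnSeries.coeff_mul_single_add, mul_one]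
  rw [e1, e2, algebraMap_coeff, algebraMap_coeff]
  split_ifs
  · rw [map_zero]
  · rw [PowerSeries.coeff_map]

theorem lm_px {k L : Type} [CommRing k] [CommRing L] (ι : k →+* L) (f : Polynomial k) :
    lm ι (px k f) = px L (f.map ι) := by
  ext n
  rw [lm_coeff, px_coeff, px_coeff]
  split_ifs
  · rw [Polynomial.coeff_map]
  · rw [map_zero]

theorem lm_comp {k L M : Type} [CommRing k] [CommRing L] [CommRing M] (ι : k →+* L)
    (κ : L →+* M) : (lm κ).comp (lm ι) = lm (κ.comp ι) := by
  ext f n
  rw [RingHom.comp_apply, lm_coeff, lm_coeff, lm_coeff, RingHom.comp_apply]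

theorem c1_algebraMap {k : Type} [Field k] (F : PowerSeries k) :
    c1 k (algebraMap (PowerSeries k) (LaurentSeries k) F) =
      algebraMap (Pk k) (R1 k) (PowerSeries.map Polynomial.C F) := by
  rw [c1, lK_algebraMap]; rfl

theorem c2_algebraMap {k : Type} [Field k] (F : PowerSeries k) :
    c2 k (algebraMap (PowerSeries k) (LaurentSeries k) F) =
      algebraMap (Pk k) (R2 k) (PowerSeries.map Polynomial.C F) := by
  rw [c2, lK_algebraMap]; rfl

theorem θ2_algebraMap {k : Type} [Field k] (F : PowerSeries k) :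
    θ2 k (algebraMap (PowerSeries k) (LaurentSeries k) F) =
      algebraMap (Pk k) (R2 k) (PowerSeries.rescale (Polynomial.X : Polynomial k)
        (PowerSeries.map Polynomial.C F)) := by
  rw [θ2, lK_algebraMap]; rfl

theorem φ1_algebraMap {k : Type} [Field k] (F : Pk k) :
    φ1 k (algebraMap (Pk k) (R1 k) F) = iA k (a1 k F) := by
  rw [φ1]
  exact IsLocalization.Away.lift_eq _ _ F

theorem φ2_algebraMap {k : Type} [Field k] (F : Pk k) :
    φ2 k (algebraMap (Pk k) (R2 k) F) = iA k (a2 k F) := by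
  rw [φ2]
  exact IsLocalization.Away.lift_eq _ _ F

theorem a1_map_C {k : Type} [Field k] (F : PowerSeries k) :
    a1 k (PowerSeries.map Polynomial.C F) = PowerSeries.map LaurentPolynomial.C F := by
  ext n : 1
  rw [a1, PowerSeries.coeff_map, PowerSeries.coeff_map, PowerSeries.coeff_map]
  simp

theorem a2_map_C {k : Type} [Field k] (F : PowerSeries k) :
    a2 k (PowerSeries.map Polynomial.C F) = PowerSeries.map LaurentPolynomial.C F := by
  ext n : 1
  rw [a2, PowerSeries.coeff_map, PowerSeries.coeff_map, PowerSeries.coeff_map]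
  simp

theorem c1_single {k : Type} [Field k] : c1 k (HahnSeries.single 1 1) = t1 k := by
  rw [← algebraMap_X_eq, c1_algebraMap, PowerSeries.map_X]; rfl

theorem c2_single {k : Type} [Field k] : c2 k (HahnSeries.single 1 1) = t2 k := by
  rw [← algebraMap_X_eq, c2_algebraMap, PowerSeries.map_X]; rfl

theorem φ1_t1 {k : Type} [Field k] : φ1 k (t1 k) = iA k PowerSeries.X := by
  rw [t1, φ1_algebraMap, a1_X]

theorem φ2_t2 {k : Type} [Field k] : φ2 k (t2 k) = iA k PowerSeries.X := by
  rw [t2, φ2_algebraMap, a2_X]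

theorem iK_algebraMap {k : Type} [Field k] (F : PowerSeries k) :
    iK k (algebraMap (PowerSeries k) (LaurentSeries k) F) =
      iA k (PowerSeries.map LaurentPolynomial.C F) := by
  rw [iK, RingHom.comp_apply, c1_algebraMap, φ1_algebraMap, a1_map_C]

theorem iK_single {k : Type} [Field k] :
    iK k (HahnSeries.single 1 1) = iA k PowerSeries.X := by
  rw [← algebraMap_X_eq, iK_algebraMap, PowerSeries.map_X]

theorem φ1_z1 {k : Type} [Field k] :
    φ1 k (z1 k) = iA k (PowerSeries.C (LaurentPolynomial.T 1)) := by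
  rw [z1, φ1_algebraMap, a1_C, Polynomial.toLaurent_X]

theorem φ2_w2 {k : Type} [Field k] :
    φ2 k (w2 k) = iA k (PowerSeries.C (LaurentPolynomial.T (-1))) := by
  rw [w2, φ2_algebraMap, a2_C, Polynomial.toLaurent_X, LaurentPolynomial.invert_T]

theorem φ2_c2 {k : Type} [Field k] : (φ2 k).comp (c2 k) = iK k := by
  apply laurent_hom_ext
  intro F
  rw [RingHom.comp_apply, c2_algebraMap, φ2_algebraMap, a2_map_C, iK_algebraMap]

/-- `z` times `1/z` in the big field -/
theorem iA_CT_mul {k : Type} [Field k] :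
    iA k (PowerSeries.C (LaurentPolynomial.T 1)) * iA k (PowerSeries.C (LaurentPolynomial.T (-1)))
      = 1 := by
  rw [← map_mul, ← map_mul, ← LaurentPolynomial.T_add]
  simp

theorem iA_X_ne_zero {k : Type} [Field k] : iA k PowerSeries.X ≠ 0 := (isUnit_iA_X k).ne_zero

theorem φ2_w2_inv {k : Type} [Field k] :
    φ2 k (((isUnit_R2 k).2.unit⁻¹ : (R2 k)ˣ) : R2 k) =
      iA k (PowerSeries.C (LaurentPolynomial.T 1)) := by
  have h1 : φ2 k (((isUnit_R2 k).2.unit⁻¹ : (R2 k)ˣ) : R2 k) * φ2 k (w2 k) = 1 := by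
    rw [← map_mul, w2, IsUnit.val_inv_mul, map_one]
  rw [φ2_w2] at h1
  have h2 := iA_CT_mul (k := k)
  have h3 : iA k (PowerSeries.C (LaurentPolynomial.T (-1))) ≠ 0 := (isUnit_iA_CT k (-1)).ne_zero
  exact mul_right_cancel₀ h3 (h1.trans h2.symm)

theorem φ1_t1_inv {k : Type} [Field k] :
    φ1 k (((isUnit_R1_X k).unit⁻¹ : (R1 k)ˣ) : R1 k) = (iA k PowerSeries.X)⁻¹ := by
  have h1 : φ1 k (((isUnit_R1_X k).unit⁻¹ : (R1 k)ˣ) : R1 k) * φ1 k (t1 k) = 1 := by
    rw [← map_mul, t1, IsUnit.val_inv_mul, map_one]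
  rw [φ1_t1] at h1
  exact eq_inv_of_mul_eq_one_left h1

theorem φ2_α2 {k : Type} [Field k] (a : ℕ) (c : k) : (φ2 k).comp (α2 k a c) = φ0 k a c := by
  have hc : ∀ x : KK k, φ2 k (c2 k x) = φ1 k (c1 k x) := by
    intro x
    have h := RingHom.congr_fun (φ2_c2 (k := k)) x
    rw [RingHom.comp_apply] at h
    rw [h]; rfl
  apply Polynomial.ringHom_ext
  · intro x
    rw [RingHom.comp_apply, φ0, RingHom.comp_apply, α2, α1, Polynomial.coe_eval₂RingHom,
      Polynomial.coe_eval₂RingHom, Polynomial.eval₂_C, Polynomial.eval₂_C]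
    exact hc x
  · rw [RingHom.comp_apply, φ0, RingHom.comp_apply, α2, α1, Polynomial.coe_eval₂RingHom,
      Polynomial.coe_eval₂RingHom, Polynomial.eval₂_X, Polynomial.eval₂_X, map_add, map_add, hc,
      map_mul, map_mul, map_pow, map_pow, φ1_t1, φ2_t2, φ2_w2_inv, φ1_z1]

theorem θ_single {k : Type} [Field k] : θ k (HahnSeries.single 1 1) =
    iA k (PowerSeries.C (LaurentPolynomial.T (-1))) * iA k PowerSeries.X := by
  rw [← algebraMap_X_eq, θ, RingHom.comp_apply, θ2_algebraMap, PowerSeries.map_X,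
    PowerSeries.rescale_X, φ2_algebraMap, map_mul, map_mul, a2_X, a2_C, Polynomial.toLaurent_X,
    LaurentPolynomial.invert_T]

theorem φ1_β1 {k : Type} [Field k] : (φ1 k).comp (β1 k) = (θ k).comp (px k) := by
  apply Polynomial.ringHom_ext
  · intro x
    rw [RingHom.comp_apply, RingHom.comp_apply, β1, px, Polynomial.coe_eval₂RingHom,
      Polynomial.coe_eval₂RingHom, Polynomial.eval₂_C, Polynomial.eval₂_C, RingHom.comp_apply,
      ← algebraMap_C_eq, c1_algebraMap, φ1_algebraMap, a1_map_C, θ, RingHom.comp_apply,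
      θ2_algebraMap, φ2_algebraMap]
    congr 1
    rw [PowerSeries.map_C, PowerSeries.map_C]
    have e : PowerSeries.rescale (Polynomial.X : Polynomial k) (PowerSeries.C (Polynomial.C x))
        = PowerSeries.C (Polynomial.C x) := by
      ext n : 1
      rw [PowerSeries.coeff_rescale, PowerSeries.coeff_C]
      split_ifs with h
      · rw [h, pow_zero, one_mul]
      · rw [mul_zero]
    rw [e, a2_C]
    simp
  · rw [RingHom.comp_apply, RingHom.comp_apply, β1, px, Polynomial.coe_eval₂RingHom,
      Polynomial.coe_eval₂RingHom, Polynomial.eval₂_X, Polynomial.eval₂_X, map_mul, φ1_z1,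
      φ1_t1_inv]
    have h1 : θ k (HahnSeries.single (-1 : ℤ) (1 : k)) * θ k (HahnSeries.single 1 1) = 1 := by
      rw [← map_mul, HahnSeries.single_mul_single]
      simp
    rw [θ_single] at h1
    have h2 : iA k (PowerSeries.C (LaurentPolynomial.T 1)) * (iA k PowerSeries.X)⁻¹ *
        (iA k (PowerSeries.C (LaurentPolynomial.T (-1))) * iA k PowerSeries.X) = 1 := by
      have h3 := iA_CT_mul (k := k)
      have h4 := iA_X_ne_zero (k := k)
      calc _ = (iA k (PowerSeries.C (LaurentPolynomial.T 1)) *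
            iA k (PowerSeries.C (LaurentPolynomial.T (-1)))) *
            ((iA k PowerSeries.X)⁻¹ * iA k PowerSeries.X) := by ring
        _ = 1 := by rw [h3, inv_mul_cancel₀ h4, one_mul]
    have h5 : iA k (PowerSeries.C (LaurentPolynomial.T (-1))) * iA k PowerSeries.X ≠ 0 :=
      mul_ne_zero (isUnit_iA_CT k (-1)).ne_zero iA_X_ne_zero
    exact mul_right_cancel₀ h5 (h2.trans h1.symm)

/-- two ring homomorphisms from `k((t))[X]` which agree on `k((t))` and on `X` -/
theorem kk_hom_ext {k S : Type} [Field k] [CommRing S] {f g : Polynomial (KK k) →+* S}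
    (h1 : f.comp Polynomial.C = g.comp Polynomial.C) (h2 : f Polynomial.X = g Polynomial.X) :
    f = g := Polynomial.ringHom_ext' h1 h2

end Pool.Agent.Helper54.FP
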