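import Pool.Agent.Helper54.FP.Descent

/-!
# Joins of covers with a common inertia group of order `p`
-/

set_option autoImplicit false
set_option linter.unusedVariables false
set_option linter.unusedSectionVars false
set_option linter.style.haveILetI false

open Pool.Agent.Helper54.PW

namespace Pool.Agent.Helper54.FP

section
variable {p : ℕ} [Fact p.Prime] {G : Type} [Group G] [Fintype G] [DecidableEq G]

theorem pcov_sup {k : Type} [Field k] [IsAlgClosed k] [CharP k p] {τ : G} (hτ : orderOf τ = p)
    {H1 H2 : Subgroup G} (hτ2 : τ ∈ H2) (h1 : PCov p k τ H1) (h2 : PCov p k τ H2) :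
    PCov p k τ (H1 ⊔ H2) := by
  haveI : CharP (KK k) p := charP_KK p k
  obtain ⟨j, hj⟩ : ∃ j : KK k →+* AlgebraicClosure (KK k), j = algebraMap _ _ := ⟨_, rfl⟩
  have h4 : PCov p (AlgebraicClosure (KK k)) τ (H1 ⊔ H2) :=
    pcov_baseChange j (patch_two hτ hτ2 h1 h2)
  letI : Algebra k (AlgebraicClosure (KK k)) := (j.comp HahnSeries.C).toAlgebra
  exact pcov_descent hτ h4

/-- finite joins -/
theorem pcov_sup' {k : Type} [Field k] [IsAlgClosed k] [CharP k p] {τ : G} (hτ : orderOf τ = p)
    (s : Finset (Subgroup G)) (hs : s.Nonempty) (hτs : ∀ H ∈ s, τ ∈ H)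
    (h : ∀ H ∈ s, PCov p k τ H) : PCov p k τ (s.sup' hs id) ∧ τ ∈ s.sup' hs id := by
  induction hs using Finset.Nonempty.cons_induction with
  | singleton a =>
    rw [Finset.sup'_singleton]
    exact ⟨h a (Finset.mem_singleton_self a), hτs a (Finset.mem_singleton_self a)⟩
  | cons a s ha hs ih =>
    obtain ⟨h1, h2⟩ := ih (fun H hH => hτs H (Finset.mem_cons_of_mem hH))
      (fun H hH => h H (Finset.mem_cons_of_mem hH))
    rw [Finset.sup'_cons hs]
    exact ⟨pcov_sup hτ h2 (h a (Finset.mem_cons_self a s)) h1,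
      le_sup_left (a := id a) (hτs a (Finset.mem_cons_self a s))⟩

end

/-- Let the finite group `G` be generated by subgroups `H` containing `τ`, of order `p`, such that each
`H` has a cover of the affine line with inertia group `⟨τ⟩` at infinity.  Then so has `G`. -/
theorem realAct_of_join {p : ℕ} [Fact p.Prime] {k : Type} [Field k] [IsAlgClosed k] [CharP k p]
    {G : Type} [Group G] [Finite G] {τ : G} (hτ : orderOf τ = p) (S : Set (Subgroup G))
    (hτS : ∀ H ∈ S, τ ∈ H)
    (h : ∀ H ∈ S, RealAct k ((Subgroup.zpowers τ).subgroupOf H)) (htop : sSup S = ⊤) :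
    RealAct k (Subgroup.zpowers τ) := by
  classical
  haveI : Fintype G := Fintype.ofFinite G
  haveI : Finite (Subgroup G) := inferInstance
  have hfin : S.Finite := S.toFinite
  have hne : hfin.toFinset.Nonempty := by
    by_contra hcon
    rw [Finset.not_nonempty_iff_eq_empty, Set.Finite.toFinset_eq_empty] at hcon
    rw [hcon, sSup_empty] at htop
    have h1 : τ ∈ (⊥ : Subgroup G) := by rw [htop]; exact Subgroup.mem_top τ
    rw [Subgroup.mem_bot] at h1
    rw [h1, orderOf_one] at hτ
    exact (Fact.out : p.Prime).one_lt.ne hτ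
  obtain ⟨h1, -⟩ := pcov_sup' (k := k) hτ hfin.toFinset hne
    (fun H hH => hτS H (hfin.mem_toFinset.1 hH))
    (fun H hH => pcov_of_realizable τ hτ H (hτS H (hfin.mem_toFinset.1 hH))
      (h H (hfin.mem_toFinset.1 hH)))
  apply realAct_of_pcov τ hτ
  have h2 : hfin.toFinset.sup' hne id = ⊤ := by
    rw [← htop]
    apply le_antisymm
    · exact Finset.sup'_le _ _ fun H hH => le_sSup (hfin.mem_toFinset.1 hH)
    · exact sSup_le fun H hH => Finset.le_sup' id (hfin.mem_toFinset.2 hH)
  rw [← h2]
  exact h1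

end Pool.Agent.Helper54.FP
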