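import Pool.Agent.Helper54.FP.Patch2

/-!
# Descent of a cover from a big algebraically closed field to a small one
-/

set_option autoImplicit false
set_option linter.unusedVariables false
set_option linter.unusedSectionVars false
set_option linter.style.haveILetI false

namespace Pool.Agent.Helper54.FP

section ev
variable {k K : Type} [Field k] [Field K] [Algebra k K]

/-- a property which holds for all sufficiently large subalgebras -/
def Evn (P : Subalgebra k K → Prop) : Prop :=
  ∃ S : Finset K, ∀ R : Subalgebra k K, (S : Set K) ⊆ R → P R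

theorem Evn.and {P Q : Subalgebra k K → Prop} (h : Evn P) (h' : Evn Q) :
    Evn (fun R => P R ∧ Q R) := by
  classical
  obtain ⟨S, hS⟩ := h
  obtain ⟨T, hT⟩ := h'
  refine ⟨S ∪ T, fun R hR => ⟨hS R ?_, hT R ?_⟩⟩
  · exact fun x hx => hR (by simp only [Finset.coe_union]; exact Or.inl hx)
  · exact fun x hx => hR (by simp only [Finset.coe_union]; exact Or.inr hx)

theorem Evn.forall {J : Type} (s : Finset J) {P : J → Subalgebra k K → Prop}
    (h : ∀ j ∈ s, Evn (P j)) : Evn (fun R => ∀ j ∈ s, P j R) := by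
  classical
  induction s using Finset.induction_on with
  | empty => exact ⟨∅, fun R _ j hj => absurd hj (Finset.notMem_empty _)⟩
  | insert a s ha ih =>
    obtain ⟨S, hS⟩ := (h a (Finset.mem_insert_self _ _)).and
      (ih fun j hj => h j (Finset.mem_insert_of_mem hj))
    refine ⟨S, fun R hR j hj => ?_⟩
    rcases Finset.mem_insert.1 hj with rfl | hj
    · exact (hS R hR).1
    · exact (hS R hR).2 j hj

theorem Evn.mem (x : K) : Evn (fun R : Subalgebra k K => x ∈ R) :=
  ⟨{x}, fun R hR => hR (by simp)⟩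

theorem evn_poly (F : Polynomial K) :
    Evn (fun R : Subalgebra k K => F ∈ Set.range (Polynomial.mapRingHom (R.val : R →+* K))) := by
  obtain ⟨S, hS⟩ := Evn.forall F.support (P := fun n (R : Subalgebra k K) => F.coeff n ∈ R)
    (fun n _ => Evn.mem _)
  refine ⟨S, fun R hR => ?_⟩
  have h := hS R hR
  have h2 : F ∈ Polynomial.lifts (R.val : R →+* K) := by
    rw [Polynomial.lifts_iff_coeff_lifts]
    intro n
    by_cases hn : n ∈ F.support
    · exact ⟨⟨_, h n hn⟩, rfl⟩
    · rw [Polynomial.notMem_support_iff.1 hn]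
      exact ⟨0, map_zero _⟩
  rw [Polynomial.mem_lifts] at h2
  exact h2

theorem evn_poly2 (F : Polynomial (Polynomial K)) :
    Evn (fun R : Subalgebra k K => ∃ F' : Polynomial (Polynomial R),
      F'.map (Polynomial.mapRingHom (R.val : R →+* K)) = F) := by
  obtain ⟨S, hS⟩ := Evn.forall F.support
    (P := fun n (R : Subalgebra k K) =>
      F.coeff n ∈ Set.range (Polynomial.mapRingHom (R.val : R →+* K)))
    (fun n _ => evn_poly _)
  refine ⟨S, fun R hR => ?_⟩
  have h := hS R hR
  have h2 : F ∈ Polynomial.lifts (Polynomial.mapRingHom (R.val : R →+* K)) := by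
    rw [Polynomial.lifts_iff_coeff_lifts]
    intro n
    by_cases hn : n ∈ F.support
    · exact h n hn
    · rw [Polynomial.notMem_support_iff.1 hn]
      exact ⟨0, map_zero _⟩
  rw [Polynomial.mem_lifts] at h2
  exact h2

theorem evn_mv {J : Type} (F : MvPolynomial J (Polynomial K)) :
    Evn (fun R : Subalgebra k K => ∃ F' : MvPolynomial J (Polynomial R),
      MvPolynomial.map (Polynomial.mapRingHom (R.val : R →+* K)) F' = F) := by
  classical
  obtain ⟨S, hS⟩ := Evn.forall F.support
    (P := fun n (R : Subalgebra k K) =>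
      F.coeff n ∈ Set.range (Polynomial.mapRingHom (R.val : R →+* K)))
    (fun n _ => evn_poly _)
  refine ⟨S, fun R hR => ?_⟩
  have h := hS R hR
  choose! f hf using h
  refine ⟨∑ n ∈ F.support, MvPolynomial.monomial n (f n), ?_⟩
  rw [map_sum]
  conv_rhs => rw [F.as_sum]
  apply Finset.sum_congr rfl
  intro n hn
  rw [MvPolynomial.map_monomial, hf n hn]

theorem evn_mat {J : Type} [Fintype J] (M : Matrix J J (Polynomial K)) :
    Evn (fun R : Subalgebra k K => ∃ M' : Matrix J J (Polynomial R),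
      M'.map (Polynomial.mapRingHom (R.val : R →+* K)) = M) := by
  obtain ⟨S, hS⟩ := Evn.forall (Finset.univ : Finset (J × J))
    (P := fun ij (R : Subalgebra k K) =>
      M ij.1 ij.2 ∈ Set.range (Polynomial.mapRingHom (R.val : R →+* K)))
    (fun n _ => evn_poly _)
  refine ⟨S, fun R hR => ?_⟩
  have h := fun ij => hS R hR ij (Finset.mem_univ _)
  choose f hf using h
  refine ⟨fun i j => f (i, j), ?_⟩
  ext1 i j
  exact hf (i, j)

end ev

section
variable {p : ℕ} [Fact p.Prime] {G : Type} [Group G] [Fintype G] [DecidableEq G]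

theorem lm_injective {k L : Type} [CommRing k] [CommRing L] (ι : k →+* L)
    (h : Function.Injective ι) : Function.Injective (lm ι) := by
  rw [injective_iff_map_eq_zero]
  intro f hf
  ext n
  have := lm_coeff ι f n
  rw [hf, HahnSeries.coeff_zero] at this
  rw [HahnSeries.coeff_zero]
  exact h (this.symm.trans (map_zero ι).symm)

/-- a Laurent series with coefficients in a subring -/
theorem exists_lm {K : Type} [CommRing K] {R : Type} [CommRing R] (ι : R →+* K)
    (hι : Function.Injective ι) (f : LaurentSeries K)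
    (h : ∀ n, f.coeff n ∈ Set.range ι) : ∃ f' : LaurentSeries R, lm ι f' = f := by
  choose c hc using h
  have hsupp : (Function.support c) ⊆ f.support := by
    intro n hn
    rw [Function.mem_support] at hn
    rw [HahnSeries.mem_support]
    intro h0
    apply hn
    apply hι
    rw [hc, h0, map_zero]
  refine ⟨⟨c, f.isPWO_support.mono hsupp⟩, ?_⟩
  ext n
  rw [lm_coeff]
  exact hc n

theorem umat_inv {Ω : Type} [CommRing Ω] [CharP Ω p] (τ : G) (hτ : τ ^ p = 1) (u : Ω) :
    Umat p τ u * Umat p τ (-u) = 1 := by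
  rw [← umat_add τ hτ, add_neg_cancel, umat_zero]

theorem umat_isUnit {Ω : Type} [CommRing Ω] [CharP Ω p] (τ : G) (hτ : τ ^ p = 1) (u : Ω) :
    IsUnit (Umat p τ u) :=
  IsUnit.of_mul_eq_one _ (umat_inv τ hτ u)

theorem map_isUnit_inj {A B : Type} [Field A] [Field B] (f : A →+* B) {M N : Matrix G G A}
    (h : M.map f = N.map f) : M = N := by
  ext i j
  have := congrFun (congrFun h i) j
  exact f.injective (by simpa using this)

attribute [local irreducible] lm px Umat

theorem frob_C {K : Type} [Field K] [CharP K p] {τ : G} (hτ : τ ^ p = 1) {g : Polynomial K}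
    {C : Matrix G G (LaurentSeries K)} {Ω : Type} [Field Ω] {i : LaurentSeries K →+* Ω} {u : Ω}
    (hu : u ^ p - u = i (px K g)) {Ψ : Matrix G G (Polynomial K)}
    (hΨ : (C.map i * Umat p τ u).map (fun y => y ^ p) =
      Ψ.map (i.comp (px K)) * (C.map i * Umat p τ u)) :
    C.map (fun x => x ^ p) * (Umat p τ g).map (px K) = Ψ.map (px K) * C := by
  haveI : CharP (LaurentSeries K) p := charP_LS p K
  haveI : CharP Ω p := charP_hom i
  have e1 : (C.map i * Umat p τ u).map (fun y => y ^ p) =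
      (C.map (fun x => x ^ p)).map i * Umat p τ (i (px K g)) * Umat p τ u := by
    have h1 : (C.map i * Umat p τ u).map (fun y => y ^ p) =
        (C.map i).map (frobenius Ω p) * (Umat p τ u).map (frobenius Ω p) := by
      rw [← Matrix.map_mul]
      rfl
    have h2 : (Umat p τ u).map (frobenius Ω p) = Umat p τ (i (px K g)) * Umat p τ u := by
      have : (Umat p τ u).map (frobenius Ω p) = Umat p τ (u ^ p) := umat_frob τ u
      rw [this, ← umat_add τ hτ, ← hu, sub_add_cancel]
    have h3 : (C.map i).map (frobenius Ω p) = (C.map (fun x => x ^ p)).map i := by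
      ext1 a b
      simp [frobenius_def]
    rw [h1, h2, h3, Matrix.mul_assoc]
  rw [e1] at hΨ
  have e2 : (C.map (fun x => x ^ p)).map i * Umat p τ (i (px K g)) =
      Ψ.map (i.comp (px K)) * C.map i := by
    have h3 := congrArg (fun M => M * Umat p τ (-u)) hΨ
    beta_reduce at h3
    rw [Matrix.mul_assoc, umat_inv τ hτ, Matrix.mul_one] at h3
    rw [h3, Matrix.mul_assoc, Matrix.mul_assoc, umat_inv τ hτ, Matrix.mul_one]
  apply map_isUnit_inj i
  rw [Matrix.map_mul, Matrix.map_mul]
  have h4 : ((Umat p τ g).map (px K)).map i = Umat p τ (i (px K g)) := by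
    rw [umat_map, umat_map]
  have h5 : (Ψ.map (px K)).map i = Ψ.map (i.comp (px K)) := by
    ext1 a b
    simp
  rw [h4, h5, e2]

theorem umat_poly_inv {K : Type} [Field K] [CharP K p] {τ : G} (hτ : τ ^ p = 1)
    (g : Polynomial K) : Umat p τ (-g) * Umat p τ g = 1 := by
  rw [← umat_add τ hτ, neg_add_cancel, umat_zero]

/-- descent of a cover of the line from `K` to `k`, both algebraically closed -/
theorem pcov_descent {k K : Type} [Field k] [IsAlgClosed k] [CharP k p] [Field K] [IsAlgClosed K]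
    [Algebra k K] {τ : G} (hτo : orderOf τ = p) {H : Subgroup G} (h : PCov p K τ H) :
    PCov p k τ H := by
  classical
  have hτ : τ ^ p = 1 := by rw [← hτo]; exact pow_orderOf_eq_one τ
  haveI : CharP K p := charP_hom (algebraMap k K)
  haveI : CharP (LaurentSeries K) p := charP_LS p K
  obtain ⟨g, C, Ω, _, i, u, hg, hgp, hC, hu, hFM⟩ := h
  haveI : CharP Ω p := charP_hom i
  have hφ : Function.Injective (i.comp (px K)) := i.injective.comp (px_injective K)
  obtain ⟨Ψ, hΨu, hΨ⟩ := hFM.frob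
  have hfr := frob_C hτ hu hΨ
  have hΨd := (Matrix.isUnit_iff_isUnit_det _).1 hΨu
  have hCd := (Matrix.isUnit_iff_isUnit_det _).1 hC
  -- the equations for `C` and its inverse
  have hΨi : (Ψ⁻¹).map (px K) * Ψ.map (px K) = 1 := by
    rw [← Matrix.map_mul, Matrix.nonsing_inv_mul _ hΨd]
    exact Matrix.map_one _ (map_zero _) (map_one _)
  have hC1 : C = (Ψ⁻¹).map (px K) * C.map (fun x => x ^ p) * (Umat p τ g).map (px K) := by
    rw [Matrix.mul_assoc, hfr, ← Matrix.mul_assoc, hΨi, Matrix.one_mul]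
  have hCp : (C⁻¹).map (fun x => x ^ p) * C.map (fun x => x ^ p) = 1 := by
    have h1 : (C⁻¹).map (frobenius (LaurentSeries K) p) * C.map (frobenius (LaurentSeries K) p) =
        1 := by
      rw [← Matrix.map_mul, Matrix.nonsing_inv_mul _ hCd]
      exact Matrix.map_one _ (map_zero _) (map_one _)
    exact h1
  have hUi : (Umat p τ (-g)).map (px K) * (Umat p τ g).map (px K) = 1 := by
    rw [← Matrix.map_mul, umat_poly_inv hτ]
    exact Matrix.map_one _ (map_zero _) (map_one _)
  have hC2 : C⁻¹ = (Umat p τ (-g)).map (px K) * (C⁻¹).map (fun x => x ^ p) * Ψ.map (px K) := by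
    have h1 : ((Umat p τ (-g)).map (px K) * (C⁻¹).map (fun x => x ^ p) * Ψ.map (px K)) * C = 1 := by
      rw [Matrix.mul_assoc, ← hfr, Matrix.mul_assoc, ← Matrix.mul_assoc ((C⁻¹).map _), hCp,
        Matrix.one_mul, hUi]
    exact Matrix.inv_eq_left_inv h1
  obtain ⟨S1, hS1⟩ := rational_coeffs (p := p) (k := k) C (Ψ⁻¹) (Umat p τ g) hC1
  obtain ⟨S2, hS2⟩ := rational_coeffs (p := p) (k := k) (C⁻¹) (Umat p τ (-g)) Ψ hC2
  haveI : Fintype H := Fintype.ofFinite H
  obtain ⟨Θ, r, A, B, q, d, e, hr, hirr, hd, he, hr2, hq, hAB⟩ := exists_prim hφ hFM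
  obtain ⟨S3, hS3⟩ := bertini_noether (k := k) r hr hirr
  -- the finitely generated subalgebra
  have E1 : Evn (fun R : Subalgebra k K => ∀ i j n, (C i j).coeff n ∈ R) := ⟨S1, hS1⟩
  have E2 : Evn (fun R : Subalgebra k K => ∀ i j n, (C⁻¹ i j).coeff n ∈ R) := ⟨S2, hS2⟩
  have E3 : Evn (fun R : Subalgebra k K => ∀ rR : Polynomial (Polynomial R),
        rR.map (Polynomial.mapRingHom (R.val : R →+* K)) = r →
        ∀ l : R →ₐ[k] k, Irreducible (rR.map (Polynomial.mapRingHom (l : R →+* k)))) := ⟨S3, hS3⟩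
  have E4 := Evn.forall (Finset.univ : Finset (G × G))
    (P := fun ij (R : Subalgebra k K) => ∃ F' : Polynomial (Polynomial R),
      F'.map (Polynomial.mapRingHom (R.val : R →+* K)) = q ij.1 ij.2)
    (fun ij _ => evn_poly2 (q ij.1 ij.2))
  obtain ⟨S, hS⟩ := ((((E1.and E2).and E3).and E4).and
    (((evn_mat (k := k) Ψ).and (evn_mat (Ψ⁻¹))).and (evn_poly g))).and
      (((evn_mv (k := k) Θ).and (((evn_poly2 r).and (evn_poly2 A)).and (evn_poly2 B))).and
        ((evn_poly d).and (evn_poly e)))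
  obtain ⟨R, hR⟩ : ∃ R : Subalgebra k K, R = Algebra.adjoin k (S : Set K) := ⟨_, rfl⟩
  obtain ⟨⟨⟨⟨⟨r1, r2⟩, r3⟩, r4⟩, ⟨⟨⟨Ψ', hΨ'⟩, ⟨Ψi', hΨi'⟩⟩, ⟨g', hg'⟩⟩⟩, ⟨⟨⟨Θ', hΘ'⟩,
    ⟨⟨⟨r', hr'⟩, ⟨A', hA'⟩⟩, ⟨B', hB'⟩⟩⟩, ⟨⟨d', hd'⟩, ⟨e', he'⟩⟩⟩⟩ := hS R (by
      rw [hR]; exact Algebra.subset_adjoin)
  have r5 : ∀ ij : G × G, ∃ F' : Polynomial (Polynomial R),
      F'.map (Polynomial.mapRingHom (R.val : R →+* K)) = q ij.1 ij.2 :=
    fun ij => r4 ij (Finset.mem_univ _)
  choose q' hq' using r5
  have hval : Function.Injective (R.val : R →+* K) := Subtype.val_injective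
  have hρ : Function.Injective (Polynomial.mapRingHom (R.val : R →+* K)) :=
    Polynomial.map_injective _ hval
  have hρ2 : Function.Injective (Polynomial.map (Polynomial.mapRingHom (R.val : R →+* K))) :=
    Polynomial.map_injective _ hρ
  -- the specialization
  have hlc : ∀ (F : Polynomial K) (F' : Polynomial R),
      Polynomial.mapRingHom (R.val : R →+* K) F' = F →
        F.leadingCoeff = ((F'.coeff F.natDegree : R) : K) := by
    intro F F' hF
    subst hF
    exact Polynomial.coeff_map _ _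
  obtain ⟨x, hx⟩ : ∃ x : R, x = g'.coeff g.natDegree * d'.coeff d.natDegree *
      e'.coeff e.natDegree := ⟨_, rfl⟩
  have hg0 : g ≠ 0 := by rintro rfl; simp at hg
  have hx0 : (x : K) ≠ 0 := by
    rw [hx, Subalgebra.coe_mul, Subalgebra.coe_mul, ← hlc g g' hg', ← hlc d d' hd', ← hlc e e' he']
    exact mul_ne_zero (mul_ne_zero (Polynomial.leadingCoeff_ne_zero.2 hg0)
      (Polynomial.leadingCoeff_ne_zero.2 hd)) (Polynomial.leadingCoeff_ne_zero.2 he)
  obtain ⟨l, hl⟩ : ∃ l : R →ₐ[k] k, l x ≠ 0 := by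
    subst hR
    exact exists_point S (x : K) x.2 hx0
  rw [hx, map_mul, map_mul] at hl
  have hlg : l (g'.coeff g.natDegree) ≠ 0 := fun h0 => hl (by rw [h0, zero_mul, zero_mul])
  have hld : l (d'.coeff d.natDegree) ≠ 0 := fun h0 => hl (by rw [h0, mul_zero, zero_mul])
  have hle : l (e'.coeff e.natDegree) ≠ 0 := fun h0 => hl (by rw [h0, mul_zero])
  -- the matrices
  have hC' : ∀ a b, ∃ f' : LaurentSeries R, lm (R.val : R →+* K) f' = C a b := fun a b =>
    exists_lm _ hval _ (fun n => ⟨⟨_, r1 a b n⟩, rfl⟩)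
  have hD' : ∀ a b, ∃ f' : LaurentSeries R, lm (R.val : R →+* K) f' = C⁻¹ a b := fun a b =>
    exists_lm _ hval _ (fun n => ⟨⟨_, r2 a b n⟩, rfl⟩)
  obtain ⟨C', hCm⟩ : ∃ C' : Matrix G G (LaurentSeries R),
      C'.map (lm (R.val : R →+* K)) = C := by
    choose c hc using hC'
    exact ⟨Matrix.of c, by ext1 a b; exact hc a b⟩
  obtain ⟨D', hDm⟩ : ∃ D' : Matrix G G (LaurentSeries R),
      D'.map (lm (R.val : R →+* K)) = C⁻¹ := by
    choose c hc using hD'
    exact ⟨Matrix.of c, by ext1 a b; exact hc a b⟩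
  have hlmi := lm_injective (R.val : R →+* K) hval
  have hCD : C' * D' = 1 := by
    have h1 : (C' * D').map (lm (R.val : R →+* K)) =
        (1 : Matrix G G (LaurentSeries R)).map (lm (R.val : R →+* K)) := by
      rw [Matrix.map_mul, hCm, hDm, Matrix.mul_nonsing_inv _ hCd]
      exact (Matrix.map_one _ (map_zero _) (map_one _)).symm
    ext1 a b
    apply hlmi
    have := congrFun (congrFun h1 a) b
    simpa only [Matrix.map_apply] using this
  have hC'u : IsUnit C' := IsUnit.of_mul_eq_one _ hCD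
  -- the specialized cover
  obtain ⟨gk, hgk⟩ : ∃ gk : Polynomial k, gk = g'.map (l : R →+* k) := ⟨_, rfl⟩
  have hg'd : g'.natDegree = g.natDegree := by
    rw [← hg', Polynomial.coe_mapRingHom, Polynomial.natDegree_map_eq_of_injective hval]
  have hgkd : gk.natDegree = g.natDegree := by
    rw [hgk]
    apply le_antisymm
    · exact Polynomial.natDegree_map_le.trans hg'd.le
    · apply Polynomial.le_natDegree_of_ne_zero
      rw [Polynomial.coeff_map]
      exact hlg
  obtain ⟨Ck, hCk⟩ : ∃ Ck : Matrix G G (LaurentSeries k), Ck = C'.map (lm (l : R →+* k)) :=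
    ⟨_, rfl⟩
  have hCku : IsUnit Ck := by rw [hCk]; exact isUnit_map _ hC'u
  obtain ⟨ik, hik⟩ : ∃ ik : LaurentSeries k →+* AlgebraicClosure (LaurentSeries k),
      ik = algebraMap _ _ := ⟨_, rfl⟩
  haveI : CharP (LaurentSeries k) p := charP_LS p k
  haveI : CharP (AlgebraicClosure (LaurentSeries k)) p := charP_hom ik
  obtain ⟨uk, huk⟩ := exists_as_root (p := p) (ik (px k gk))
  refine ⟨gk, Ck, AlgebraicClosure (LaurentSeries k), inferInstance, ik, uk, ?_, ?_, hCku, huk, ?_⟩
  · rw [hgkd]; exact hg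
  · rw [hgkd]; exact hgp
  -- relations
  have hiE : Function.Injective (i.comp (lm (R.val : R →+* K))) := i.injective.comp hlmi
  have hlmpx : lm (R.val : R →+* K) (px R g') = px K g := by
    rw [lm_px, ← hg']; rfl
  have huE : u ^ p - u = (i.comp (lm (R.val : R →+* K))) (px R g') := by
    rw [RingHom.comp_apply, hlmpx]; exact hu
  have hind := indep_as (p := p) (i.comp (lm (R.val : R →+* K))) hiE
    (lm (R.val : R →+* K)) hlmi (px R g') g hlmpx hg hgp u huE
  have hukE : uk ^ p - uk = (ik.comp (lm (l : R →+* k))) (px R g') := by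
    rw [huk, RingHom.comp_apply, lm_px, hgk]
  have hrel := rel_as (px R) huE hukE hind τ C'
  have c1 : (i.comp (lm (R.val : R →+* K))).comp (px R) =
      (i.comp (px K)).comp (Polynomial.mapRingHom (R.val : R →+* K)) := by
    refine RingHom.ext fun F => ?_
    simp only [RingHom.comp_apply, lm_px, Polynomial.coe_mapRingHom]
  have c2 : (ik.comp (lm (l : R →+* k))).comp (px R) =
      (ik.comp (px k)).comp (Polynomial.mapRingHom (l : R →+* k)) := by
    refine RingHom.ext fun F => ?_
    simp only [RingHom.comp_apply, lm_px, Polynomial.coe_mapRingHom]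
  have c3 : C'.map (i.comp (lm (R.val : R →+* K))) = C.map i := by
    rw [← hCm]; rfl
  have c4 : C'.map (ik.comp (lm (l : R →+* k))) = Ck.map ik := by
    rw [hCk]; rfl
  rw [c1, c2, c3, c4] at hrel
  obtain ⟨Y, hY⟩ : ∃ Y : Matrix G G Ω, Y = C.map i * Umat p τ u := ⟨_, rfl⟩
  obtain ⟨Yk, hYk⟩ : ∃ Yk : Matrix G G (AlgebraicClosure (LaurentSeries k)),
      Yk = Ck.map ik * Umat p τ uk := ⟨_, rfl⟩
  obtain ⟨φ, hφe⟩ : ∃ φ : Polynomial K →+* Ω, φ = i.comp (px K) := ⟨_, rfl⟩
  obtain ⟨ρ, hρe⟩ : ∃ ρ : Polynomial R →+* Polynomial K,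
      ρ = Polynomial.mapRingHom (R.val : R →+* K) := ⟨_, rfl⟩
  obtain ⟨μ, hμe⟩ : ∃ μ : Polynomial R →+* Polynomial k,
      μ = Polynomial.mapRingHom (l : R →+* k) := ⟨_, rfl⟩
  rw [← hY, ← hYk, ← hφe, ← hρe, ← hμe] at hrel
  rw [← hY, ← hφe] at hFM hΨ hr2 hq
  rw [← hρe] at hΨ' hΨi' hΘ' hr' hA' hB' hd' he' hρ hρ2
  rw [← hφe] at hφ
  have hev : ∀ (g : G) (F : MvPolynomial (G × G) (Polynomial R)),
      ev (φ.comp ρ) (actM g Y) F = ev φ (actM g Y) (MvPolynomial.map ρ F) :=
    fun g F => (ev_mapCoeff ρ φ (actM g Y) F).symm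
  rw [← hYk]
  refine fm_specialize μ (φ1 := φ.comp ρ) (ik.injective.comp (px_injective k)) hrel ?_ ?_ ?_
    Θ' r' A' B' (fun a b => q' (a, b)) d' e' ?_ ?_ ?_ ?_ ?_ ?_ ?_
  · intro h hh F hF
    have h1 := hev 1 F
    rw [actM_one] at h1
    rw [hev]
    exact hFM.sym h hh _ (h1.symm.trans hF)
  · rw [hYk]
    exact (isUnit_map _ hCku).mul (umat_isUnit τ hτ uk)
  · refine ⟨Ψ'.map μ, ?_, ?_⟩
    · have h1 : Ψ' * Ψi' = 1 := by
        have h2 : (Ψ' * Ψi').map ρ = (1 : Matrix G G (Polynomial R)).map ρ := by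
          rw [Matrix.map_mul, hΨ', hΨi', Matrix.mul_nonsing_inv _ hΨd]
          exact (Matrix.map_one _ (map_zero _) (map_one _)).symm
        ext1 a b
        apply hρ
        have := congrFun (congrFun h2 a) b
        simpa only [Matrix.map_apply] using this
      exact isUnit_map _ (IsUnit.of_mul_eq_one _ h1)
    · ext1 a b
      have h3 := hrel.eq (F := MvPolynomial.X (a, b) ^ p)
        (F' := ∑ c, MvPolynomial.C (Ψ' a c) * MvPolynomial.X (c, b)) (by
          rw [map_pow, map_sum, ev_X]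
          have h4 := congrFun (congrFun hΨ a) b
          rw [Matrix.mul_apply] at h4
          rw [Matrix.map_apply] at h4
          rw [h4]
          apply Finset.sum_congr rfl
          intro c _
          rw [map_mul, ev_C, ev_X, Matrix.map_apply, ← hΨ', Matrix.map_apply]
          rfl)
      rw [map_pow, map_sum, ev_X] at h3
      rw [Matrix.map_apply, Matrix.mul_apply, h3]
      apply Finset.sum_congr rfl
      intro c _
      rw [map_mul, ev_C, ev_X, Matrix.map_apply, Matrix.map_apply]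
      rfl
  · apply Polynomial.monic_of_injective hρ
    rw [hr']; exact hr
  · rw [← Polynomial.map_map, hr', hr2]
    apply Finset.prod_congr rfl
    intro h _
    rw [hev, hΘ']
  · intro a b
    have h1 := hq a b
    have h2 := hev 1 Θ'
    rw [actM_one, hΘ'] at h2
    rw [h2, RingHom.comp_apply, hd', h1]
    rw [← Polynomial.eval₂_map]
    have h3 := hq' (a, b)
    rw [← hρe] at h3
    rw [h3]
  · apply hρ2
    rw [Polynomial.map_add, Polynomial.map_mul, Polynomial.map_mul, ← Polynomial.derivative_map,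
      hA', hr', hB', Polynomial.map_C, he', hAB]
  · intro h0
    apply hld
    rw [hμe, Polynomial.coe_mapRingHom] at h0
    have := congrArg (fun F => F.coeff d.natDegree) h0
    simpa using this
  · intro h0
    apply hle
    rw [hμe, Polynomial.coe_mapRingHom] at h0
    have := congrArg (fun F => F.coeff e.natDegree) h0
    simpa using this
  · rw [hμe]
    exact r3 r' (by rw [← hρe]; exact hr') l

end

end Pool.Agent.Helper54.FP
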