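import Pool.Agent.Helper54.FP.Step

/-!
# Patching two covers over `k((t))`
-/

set_option autoImplicit false
set_option linter.unusedVariables false
set_option linter.unusedSectionVars false
set_option linter.style.haveILetI false

namespace Pool.Agent.Helper54.FP

section
variable {p : ℕ} [Fact p.Prime] {G : Type} [Group G] [Fintype G] [DecidableEq G]
  {k : Type} [Field k]

attribute [local irreducible] φ1 φ2 c1 c2 α1 α2 θ2 θ β1 t1 z1 w2 t2 iK φ0 lm px Umat

theorem natDegree_comp_lin {F : Type} [Field F] (g : Polynomial F) (a b : F) (hb : b ≠ 0) :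
    (g.comp (Polynomial.C a + Polynomial.C b * Polynomial.X)).natDegree = g.natDegree := by
  rw [Polynomial.natDegree_comp]
  have : (Polynomial.C a + Polynomial.C b * Polynomial.X).natDegree = 1 := by
    rw [add_comm, Polynomial.natDegree_add_C, Polynomial.natDegree_C_mul_X b hb]
  rw [this, mul_one]

/-- the images of `X` under the two embeddings of `k((t))[X]` in the complement ring -/
theorem α2_X_mul (a : ℕ) (c : k) :
    (α2 k a c Polynomial.X - c2 k (HahnSeries.C c)) * w2 k = t2 k ^ a := by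
  have h : α2 k a c Polynomial.X = c2 k (HahnSeries.C c) +
      t2 k ^ a * ((isUnit_R2 k).2.unit⁻¹ : (R2 k)ˣ) := by
    simp [α2]
  rw [h, add_sub_cancel_left, mul_assoc, mul_comm _ (w2 k), w2_unit, mul_one]

theorem α2_C (a : ℕ) (c : k) (r : KK k) : α2 k a c (Polynomial.C r) = c2 k r := by simp [α2]

theorem α1_C (a : ℕ) (c : k) (r : KK k) : α1 k a c (Polynomial.C r) = c1 k r := by simp [α1]

theorem α1_X (a : ℕ) (c : k) :
    α1 k a c Polynomial.X = c1 k (HahnSeries.C c) + t1 k ^ a * z1 k := by simp [α1]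

theorem w2_ne_zero : w2 k ≠ 0 := by
  intro h
  have := w2_unit k
  rw [h, zero_mul] at this
  exact zero_ne_one this

/-- a homomorphism from the complement ring, restricted to `k((t))[X]` -/
theorem comp_α2 {S : Type} [Field S] (h : R2 k →+* S) (κ : KK k →+* S) (hc : h.comp (c2 k) = κ)
    (a : ℕ) (c : k) (x : S)
    (hx : (x - κ (HahnSeries.C c)) * h (w2 k) = κ (HahnSeries.single (1 : ℤ) (1 : k)) ^ a) :
    h.comp (α2 k a c) = Polynomial.eval₂RingHom κ x := by
  have hc' : ∀ r, h (c2 k r) = κ r := fun r => by rw [← hc]; rfl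
  have hw : h (w2 k) ≠ 0 := by
    intro h0
    have h1 := congrArg h (w2_unit k)
    rw [map_mul, h0, zero_mul, map_one] at h1
    exact zero_ne_one h1
  apply Polynomial.ringHom_ext
  · intro r
    rw [RingHom.comp_apply, α2_C, hc', Polynomial.coe_eval₂RingHom, Polynomial.eval₂_C]
  · rw [RingHom.comp_apply, Polynomial.coe_eval₂RingHom, Polynomial.eval₂_X]
    have h1 := congrArg h (α2_X_mul (k := k) a c)
    rw [map_mul, map_sub, hc', map_pow, ← c2_single, hc'] at h1
    have h2 := mul_right_cancel₀ hw (h1.trans hx.symm)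
    exact sub_left_injective h2

theorem map_θ (C : Matrix G G (LaurentSeries k)) : (C.map (θ2 k)).map (φ2 k) = C.map (θ k) := by
  ext1 i j
  simp only [Matrix.map_apply]
  rw [θ, RingHom.comp_apply]

/-- `U(ε)` is close to `1` -/
theorem exists_umat_small [CharP k p] (τ : G) (e : A0 k) (m B : ℕ) (hmB : m ≤ B) :
    ∃ M : Matrix G G (A0 k),
      Umat p τ ((PowerSeries.X : A0 k) ^ B * e) = 1 + (PowerSeries.X : A0 k) ^ m • M := by
  haveI := charP_A0 p k
  obtain ⟨M, hM⟩ := umat_small (p := p) τ ((PowerSeries.X : A0 k) ^ B * e)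
  refine ⟨((PowerSeries.X : A0 k) ^ (B - m) * e) • M, ?_⟩
  rw [hM, smul_smul, ← mul_assoc, ← pow_add, Nat.add_sub_cancel' hmB]

/-- the perturbed Artin-Schreier root -/
theorem root_perturb [CharP k p] {f : Polynomial k} {u : Om k} (hu : u ^ p - u = θ k (px k f))
    {B a : ℕ} {c : k} {g : Polynomial (KK k)} {s e : Pk k}
    (hs : α1 k a c g = β1 k f + algebraMap (Pk k) (R1 k) (PowerSeries.X ^ B * s))
    (he : (PowerSeries.X ^ B * e) ^ p - PowerSeries.X ^ B * e = PowerSeries.X ^ B * s) :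
    (iA k ((PowerSeries.X : A0 k) ^ B * a1 k e) + u) ^ p -
      (iA k ((PowerSeries.X : A0 k) ^ B * a1 k e) + u) = φ0 k a c g := by
  haveI := charP_Om p k
  have h1 : φ0 k a c g = φ1 k (α1 k a c g) := by rw [φ0]; rfl
  have h2 : (φ1 k) (β1 k f) = θ k (px k f) := by
    have := congrArg (fun r => r f) (φ1_β1 (k := k))
    simpa only [RingHom.comp_apply] using this
  have h3 : iA k ((PowerSeries.X : A0 k) ^ B * a1 k e) =
      φ1 k (algebraMap (Pk k) (R1 k) (PowerSeries.X ^ B * e)) := by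
    rw [φ1_algebraMap, map_mul (a1 k), map_pow (a1 k), a1_X]
  rw [h1, hs, map_add, h2, ← hu, h3, add_pow_char, ← map_pow, ← map_pow, ← he, map_sub, map_sub]
  ring

/-- an Artin-Schreier equation over an algebraically closed field has a solution -/
theorem exists_as_root {F : Type} [Field F] [IsAlgClosed F] (r : F) : ∃ u : F, u ^ p - u = r := by
  have hp1 : 1 < p := (Fact.out : p.Prime).one_lt
  have hdeg : (Polynomial.X ^ p - Polynomial.X - Polynomial.C r : Polynomial F).degree ≠ 0 := by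
    have : (Polynomial.X ^ p - Polynomial.X - Polynomial.C r : Polynomial F) =
        Polynomial.X ^ p - (Polynomial.X + Polynomial.C r) := by ring
    rw [this, Polynomial.degree_sub_eq_left_of_degree_lt, Polynomial.degree_X_pow]
    · exact_mod_cast (Fact.out : p.Prime).ne_zero
    · rw [Polynomial.degree_X_pow]
      refine lt_of_le_of_lt (Polynomial.degree_add_le _ _) ?_
      refine max_lt ?_ ?_
      · rw [Polynomial.degree_X]; exact_mod_cast hp1
      · exact lt_of_le_of_lt Polynomial.degree_C_le (by exact_mod_cast (by omega : 0 < p))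
  obtain ⟨u, hu⟩ := IsAlgClosed.exists_root _ hdeg
  refine ⟨u, ?_⟩
  rw [Polynomial.IsRoot, Polynomial.eval_sub, Polynomial.eval_sub, Polynomial.eval_pow,
    Polynomial.eval_X, Polynomial.eval_C, sub_eq_zero] at hu
  exact hu

theorem patch_two [CharP k p] {τ : G} (hτ : orderOf τ = p) {H1 H2 : Subgroup G} (hτ2 : τ ∈ H2)
    (h1 : PCov p k τ H1) (h2 : PCov p k τ H2) : PCov p (KK k) τ (H1 ⊔ H2) := by
  haveI := charP_Om p k
  haveI := charP_R1 p k
  haveI := charP_R2 p k
  haveI : CharP (KK k) p := charP_KK p k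
  have hτp : τ ^ p = 1 := by rw [← hτ]; exact pow_orderOf_eq_one τ
  obtain ⟨f1, C1, Ω1, _, i1, v1, hf1, hf1p, hC1, hv1, hF1⟩ := h1
  obtain ⟨f2, C2, Ω2, _, i2, v2, hf2, hf2p, hC2, hv2, hF2⟩ := h2
  obtain ⟨m1, hm1⟩ := conj_estimate C1 hC1
  obtain ⟨m2, hm2⟩ := conj_estimate C2 hC2
  obtain ⟨N, hN⟩ := exists_nu C2 hC2
  obtain ⟨B, hB⟩ : ∃ B, B = m1 + m2 + 1 := ⟨_, rfl⟩
  obtain ⟨ν, hνc, hνw, hνD⟩ := hN B (by omega)
  obtain ⟨a, ha⟩ : ∃ a, a = N + B := ⟨_, rfl⟩
  rw [← ha] at hνw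
  obtain ⟨g, hg, hgp, ⟨s1, hs1⟩, ⟨s2, hs2⟩⟩ := exists_poly (p := p) f1 f2 a B (by omega)
  obtain ⟨ε1, hε1⟩ := exists_eps (p := p) B (by omega) s1
  obtain ⟨ε2, hε2⟩ := exists_eps (p := p) B (by omega) s2
  have hroot : ∀ r : Om k, ∃ u : Om k, u ^ p - u = r := exists_as_root
  obtain ⟨u1, hu1⟩ := hroot (θ k (px k f1))
  obtain ⟨u2, hu2⟩ := hroot (θ k (px k f2))
  -- the roots for `g`
  obtain ⟨e1', he1'⟩ : ∃ x : A0 k, x = (PowerSeries.X : A0 k) ^ B * a1 k ε1 := ⟨_, rfl⟩
  obtain ⟨e2', he2'⟩ : ∃ x : A0 k, x = (PowerSeries.X : A0 k) ^ B * a1 k ε2 := ⟨_, rfl⟩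
  have hug1 : (iA k e1' + u1) ^ p - (iA k e1' + u1) = φ0 k a 0 g := by
    rw [he1']; exact root_perturb hu1 hs1 hε1
  have hug2 : (iA k e2' + u2) ^ p - (iA k e2' + u2) = φ2 k (α2 k 1 1 g) := by
    have : φ2 k (α2 k 1 1 g) = φ0 k 1 1 g := by
      rw [← φ2_α2]; rfl
    rw [this, he2']; exact root_perturb hu2 hs2 hε2
  obtain ⟨M1', hM1'⟩ := exists_umat_small (p := p) τ (a1 k ε1) m1 B (by omega)
  obtain ⟨M2', hM2'⟩ := exists_umat_small (p := p) τ (a1 k ε2) m2 B (by omega)
  rw [← he1'] at hM1'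
  rw [← he2'] at hM2'
  have hU1 : Umat p τ (iA k e1' + u1) =
      (1 + (PowerSeries.X : A0 k) ^ m1 • M1').map (iA k) * Umat p τ u1 := by
    rw [umat_add τ hτp, ← umat_map, hM1']
  have hU2 : Umat p τ (iA k e2' + u2) =
      (1 + (PowerSeries.X : A0 k) ^ m2 • M2').map (iA k) * Umat p τ u2 := by
    rw [umat_add τ hτp, ← umat_map, hM2']
  -- the disc covers
  obtain ⟨L, _, ι, y, YL, hy, hδL, hdisc2⟩ := disc_cover hf2 hf2p hv2 hF2 u2 hu2
  obtain ⟨e, he, hec, hez, heδ⟩ := exists_e1 ι y hy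
  obtain ⟨hFM2, hRel2⟩ := hdisc2 e he hec hez heδ
  have hFM1 : FM p (φ1 k) (C1.map (θ k) * Umat p τ u1) H1 := by
    obtain ⟨L1, _, ι1, y1, YL1, hy1, -, hdisc1⟩ := disc_cover hf1 hf1p hv1 hF1 u1 hu1
    obtain ⟨e1, h1, h2, h3, h4⟩ := exists_e1 ι1 y1 hy1
    exact (hdisc1 e1 h1 h2 h3 h4).1
  -- independence over the complement ring
  have hind : ∀ P : Polynomial (R2 k), P.natDegree < p →
      P.eval₂ (φ2 k) (iA k e2' + u2) = 0 → P = 0 := by
    obtain ⟨h0, h0i, h0c, h0w⟩ := exists_h0 (k := k)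
    have hss : (HahnSeries.single (-1 : ℤ) (1 : KK k) : LaurentSeries (KK k)) *
        HahnSeries.single (1 : ℤ) (1 : KK k) = 1 := by
      rw [HahnSeries.single_mul_single]; simp
    have hcomp : h0.comp (α2 k 1 1) = (px (KK k)).comp (Polynomial.compRingHom
        (Polynomial.C (HahnSeries.C (1 : k)) +
          Polynomial.C (HahnSeries.single (1 : ℤ) (1 : k)) * Polynomial.X)) := by
      rw [comp_α2 h0 HahnSeries.C h0c 1 1 (HahnSeries.C (HahnSeries.C (1 : k)) +
        HahnSeries.C (HahnSeries.single (1 : ℤ) (1 : k)) *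
          HahnSeries.single (-1 : ℤ) (1 : KK k)) (by
            rw [h0w, add_sub_cancel_left, mul_assoc, hss, mul_one, pow_one])]
      apply Polynomial.ringHom_ext
      · intro r
        rw [Polynomial.coe_eval₂RingHom, Polynomial.eval₂_C, RingHom.comp_apply,
          Polynomial.coe_compRingHom_apply, Polynomial.C_comp, px_C]
      · rw [Polynomial.coe_eval₂RingHom, Polynomial.eval₂_X, RingHom.comp_apply,
          Polynomial.coe_compRingHom_apply, Polynomial.X_comp, map_add, map_mul, px_C, px_C, px_X]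
    refine indep_as (p := p) (φ2 k) (φ2_injective k) h0 h0i (α2 k 1 1 g)
      (g.comp (Polynomial.C (HahnSeries.C (1 : k)) +
          Polynomial.C (HahnSeries.single (1 : ℤ) (1 : k)) * Polynomial.X)) ?_ ?_ ?_ _ hug2
    · rw [← RingHom.comp_apply, hcomp]; rfl
    · rw [natDegree_comp_lin]
      · exact hg
      · rw [Ne, HahnSeries.single_eq_zero_iff]; exact one_ne_zero
    · rw [natDegree_comp_lin]
      · exact hgp
      · rw [Ne, HahnSeries.single_eq_zero_iff]; exact one_ne_zero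
  -- step B
  have hτC : ∀ C : Matrix G G (LaurentSeries k), IsUnit C → IsUnit (C.map (θ2 k)) :=
    fun C hC => isUnit_map _ hC
  have regB : FM p (φ2 k) (C2.map (θ k) * (1 + (PowerSeries.X : A0 k) ^ m2 • M2').map (iA k) *
      Umat p τ u2) (Subgroup.zpowers τ) := by
    rw [Matrix.mul_assoc, ← hU2, ← map_θ]
    exact fm_left (fm_as (φ2_injective k) hug2 hind τ hτ) _ (hτC C2 hC2)
  obtain ⟨B1, B2, hB1, hB2, hkey, hFMB⟩ := glue_step C2 hC2 m2 hm2 u2 hFM2 M2' regB 1 1
  have hsup : H2 ⊔ Subgroup.zpowers τ = H2 := by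
    rw [sup_eq_left, Subgroup.zpowers_le]; exact hτ2
  rw [hsup] at hFMB
  obtain ⟨D, hD⟩ : ∃ D : Matrix G G (R2 k),
      D = B2.map (algebraMap (Pk k) (R2 k)) * C2.map (θ2 k) := ⟨_, rfl⟩
  have hDu : IsUnit D := by
    rw [hD]; exact (isUnit_map _ hB2).mul (hτC C2 hC2)
  have hYB : (B2.map (algebraMap (Pk k) (R2 k))).map (φ2 k) *
      (C2.map (θ k) * (1 + (PowerSeries.X : A0 k) ^ m2 • M2').map (iA k) * Umat p τ u2) =
      D.map (φ2 k) * Umat p τ (iA k e2' + u2) := by
    rw [hU2, hD, Matrix.map_mul, map_θ]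
    simp only [Matrix.mul_assoc]
  rw [hYB] at hFMB hkey
  -- step A
  obtain ⟨D0, M3, hD0, hD03⟩ := hνD B2 hB2
  rw [← hD] at hD03
  have hνα : ν.comp (α2 k 1 1) = φ0 k a 0 := by
    have h1 : φ0 k a 0 = Polynomial.eval₂RingHom (iK k) (φ1 k (t1 k ^ a * z1 k)) := by
      apply Polynomial.ringHom_ext
      · intro r
        rw [φ0, RingHom.comp_apply, α1_C, Polynomial.coe_eval₂RingHom, Polynomial.eval₂_C, iK]
        rfl
      · rw [φ0, RingHom.comp_apply, α1_X, Polynomial.coe_eval₂RingHom, Polynomial.eval₂_X,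
          map_zero, map_zero, zero_add]
    rw [h1]
    apply comp_α2 ν (iK k) hνc
    have h2 : iK k (HahnSeries.single (1 : ℤ) (1 : k)) = φ1 k (t1 k) := by
      rw [← c1_single, iK]; rfl
    rw [map_one, map_one, pow_one, h2]
    linear_combination -hνw
  have hug1' : (iA k e1' + u1) ^ p - (iA k e1' + u1) = ν (α2 k 1 1 g) := by
    rw [hug1, ← hνα]; rfl
  have hRelBA : Rel (φ0 k 1 1) (D.map (φ2 k) * Umat p τ (iA k e2' + u2)) (φ0 k a 0)
      (D.map ν * Umat p τ (iA k e1' + u1)) := by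
    have := rel_as (α2 k 1 1) hug2 hug1' hind τ D
    rwa [φ2_α2, hνα] at this
  obtain ⟨e', he', he'c, he'w, he'δ⟩ := exists_e2 ι y hy a (by omega)
  obtain ⟨YS, hYS⟩ : ∃ YS : Matrix G G (LaurentSeries L),
      YS = (B1.map (algebraMap (Pk k) (R1 k))).map e *
        YL.map (HahnSeries.C : L →+* LaurentSeries L) :=
    ⟨_, rfl⟩
  have hss : ∀ (F : Type) [Field F], (HahnSeries.single (-1 : ℤ) (1 : F) : LaurentSeries F) *
      HahnSeries.single (1 : ℤ) (1 : F) = 1 := by
    intro F _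
    rw [HahnSeries.single_mul_single]; simp
  have hee : e'.comp (α2 k a 0) = e.comp (α1 k 1 1) := by
    have h3 : e (t1 k) = HahnSeries.single (1 : ℤ) (1 : L) := by
      rw [← c1_single, ← RingHom.comp_apply, hec, lm_single, map_one]
    have h1 : e.comp (α1 k 1 1) = Polynomial.eval₂RingHom (lm ι)
        (1 + HahnSeries.C y * HahnSeries.single (1 : ℤ) (1 : L) ^ 2) := by
      apply Polynomial.ringHom_ext
      · intro r
        rw [RingHom.comp_apply, α1_C, Polynomial.coe_eval₂RingHom, Polynomial.eval₂_C, ← hec]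
        rfl
      · rw [RingHom.comp_apply, α1_X, Polynomial.coe_eval₂RingHom, Polynomial.eval₂_X,
          map_add, map_mul, map_pow, h3, hez, map_one, map_one, map_one]
        ring
    rw [h1]
    apply comp_α2 e' (lm ι) he'c
    rw [map_zero, map_zero, sub_zero, mul_comm, he'w, lm_single, map_one ι]
  have hRelBS : Rel (φ0 k 1 1) (D.map (φ2 k) * Umat p τ (iA k e2' + u2)) (e'.comp (α2 k a 0))
      YS := by
    rw [hee, hYS, ← hkey]
    have := (hRel2.mul_left (B1.map (algebraMap (Pk k) (R1 k)))).restrict (α1 k 1 1)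
    have g1 : (φ1 k).comp (α1 k 1 1) = φ0 k 1 1 := by rw [φ0]
    rwa [g1] at this
  have hδ : ∀ h ∈ H2, ∃ δ : LaurentSeries L →+* LaurentSeries L, δ.comp e' = e' ∧
      YS.map δ = actM h YS := by
    intro h hh
    obtain ⟨δ, d1, d2, d3⟩ := hδL h hh
    refine ⟨lm δ, he'δ δ d1 d2, ?_⟩
    rw [hYS, Matrix.map_mul, actM_mul]
    congr 1
    · ext1 i j
      simp only [Matrix.map_apply]
      rw [← RingHom.comp_apply, heδ δ d1 d2]
    · have h3 : (YL.map (HahnSeries.C : L →+* LaurentSeries L)).map (lm δ) =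
          (YL.map δ).map (HahnSeries.C : L →+* LaurentSeries L) := by
        ext1 i j
        simp only [Matrix.map_apply, lm_C]
      rw [h3, d3]
      rfl
  haveI : CharP L p := charP_hom ι
  haveI : CharP (LaurentSeries L) p := charP_LS p L
  have hFMe := fm_baseChange (α2 k a 0) (φ0_injective k 1 1) hFMB e' YS hRelBS hδ
  have hRelSA := rel_baseChange (α2 k a 0) hFMB e' he' YS hRelBS hδ (φ2 k)
    (D.map ν * Umat p τ (iA k e1' + u1)) (by rw [φ2_α2]; exact hRelBA)
  obtain ⟨hFMA, hRelAS⟩ := fm_transport (φ2_injective k) hFMe hRelSA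
  obtain ⟨Q, hQ⟩ : ∃ Q : Matrix G G (R2 k), Q = C1.map (θ2 k) * (D0⁻¹).map (c2 k) := ⟨_, rfl⟩
  have hD0i : IsUnit D0⁻¹ := by
    rw [Matrix.isUnit_nonsing_inv_iff]; exact hD0
  have hQu : IsUnit Q := by
    rw [hQ]; exact (hτC C1 hC1).mul (isUnit_map _ hD0i)
  obtain ⟨M4, hM4⟩ : ∃ M4 : Matrix G G (A0 k),
      (1 + (PowerSeries.X : A0 k) ^ B • M3) * (1 + (PowerSeries.X : A0 k) ^ m1 • M1') =
        1 + (PowerSeries.X : A0 k) ^ m1 • M4 := by
    refine ⟨M1' + (PowerSeries.X : A0 k) ^ (B - m1) • M3 +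
      (PowerSeries.X : A0 k) ^ B • (M3 * M1'), ?_⟩
    have hBm : (PowerSeries.X : A0 k) ^ B = (PowerSeries.X : A0 k) ^ m1 *
        (PowerSeries.X : A0 k) ^ (B - m1) := by
      rw [← pow_add]; congr 1; omega
    rw [hBm]
    simp only [mul_add, add_mul, mul_one, one_mul, smul_add, smul_smul, mul_smul_comm,
      smul_mul_assoc]
    abel
  have hQY : Q.map (φ2 k) * (D.map ν * Umat p τ (iA k e1' + u1)) =
      C1.map (θ k) * (1 + (PowerSeries.X : A0 k) ^ m1 • M4).map (iA k) * Umat p τ u1 := by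
    have hc : (D0⁻¹.map (c2 k)).map (φ2 k) = D0⁻¹.map (iK k) := by
      ext1 i j
      simp only [Matrix.map_apply]
      rw [← φ2_c2]; rfl
    rw [hU1, hQ, Matrix.map_mul, map_θ, hc, ← hM4, Matrix.map_mul, ← hD03]
    simp only [Matrix.mul_assoc]
  have regA : FM p (φ2 k) (C1.map (θ k) * (1 + (PowerSeries.X : A0 k) ^ m1 • M4).map (iA k) *
      Umat p τ u1) H2 := by
    rw [← hQY]
    exact fm_left hFMA Q hQu
  obtain ⟨B3, B4, hB3, hB4, hkey', hFMf⟩ := glue_step C1 hC1 m1 hm1 u1 hFM1 M4 regA a 0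
  rw [← hQY] at hFMf
  -- infinity
  obtain ⟨hA, hAc, hAw⟩ := exists_hA (k := k) a
  obtain ⟨hBh, hBc, hBw⟩ := exists_hB (k := k)
  have hpx : px (KK k) = Polynomial.eval₂RingHom (HahnSeries.C)
      (HahnSeries.single (-1 : ℤ) (1 : KK k)) := by
    apply Polynomial.ringHom_ext
    · intro r
      rw [px_C, Polynomial.coe_eval₂RingHom, Polynomial.eval₂_C]
    · rw [px_X, Polynomial.coe_eval₂RingHom, Polynomial.eval₂_X]
  have hAα : hA.comp (α2 k a 0) = px (KK k) := by
    rw [hpx]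
    apply comp_α2 hA HahnSeries.C hAc
    rw [hAw, map_zero, map_zero, sub_zero, map_pow, mul_left_comm, hss, mul_one]
  have hBα : hBh.comp (α2 k 1 1) = px (KK k) := by
    rw [hpx]
    apply comp_α2 hBh (HahnSeries.C : KK k →+* LaurentSeries (KK k)) hBc
    rw [map_one (HahnSeries.C : k →+* KK k),
      map_one (HahnSeries.C : KK k →+* LaurentSeries (KK k)), pow_one]
    have h1 := congrArg (fun x => x * (HahnSeries.single (-1 : ℤ) (1 : KK k) :
      LaurentSeries (KK k))) hBw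
    have h2 := hss (KK k)
    beta_reduce at h1
    linear_combination h1 + (hBh (w2 k) + HahnSeries.C (HahnSeries.single (1 : ℤ) (1 : k))) * h2
  obtain ⟨i, hi⟩ : ∃ i : LaurentSeries (KK k) →+* AlgebraicClosure (LaurentSeries (KK k)),
      i = algebraMap _ _ := ⟨_, rfl⟩
  haveI : CharP (LaurentSeries (KK k)) p := charP_LS p (KK k)
  haveI : CharP (AlgebraicClosure (LaurentSeries (KK k))) p := charP_hom i
  obtain ⟨v, hv⟩ : ∃ v : AlgebraicClosure (LaurentSeries (KK k)),
      v ^ p - v = i (px (KK k) g) := exists_as_root _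
  have hBinf : Rel (φ0 k 1 1) (D.map (φ2 k) * Umat p τ (iA k e2' + u2))
      ((i.comp hBh).comp (α2 k 1 1)) (D.map (i.comp hBh) * Umat p τ v) := by
    have hv' : v ^ p - v = (i.comp hBh) (α2 k 1 1 g) := by
      rw [hv, ← hBα]; rfl
    have := rel_as (α2 k 1 1) hug2 hv' hind τ D
    rwa [φ2_α2] at this
  have hcA : (i.comp hA).comp (α2 k a 0) = (i.comp hBh).comp (α2 k 1 1) := by
    rw [RingHom.comp_assoc, RingHom.comp_assoc, hAα, hBα]
  have hRelS : Rel e' YS (i.comp hA) (D.map (i.comp hBh) * Umat p τ v) :=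
    rel_baseChange (α2 k a 0) hFMB e' he' YS hRelBS hδ (i.comp hA) _ (by rw [hcA]; exact hBinf)
  have hRelA := hRelAS.trans hRelS
  have hRelf := (hRelA.mul_left (B4.map (algebraMap (Pk k) (R2 k)) * Q)).restrict (α2 k a 0)
  rw [φ2_α2, RingHom.comp_assoc, hAα, Matrix.map_mul, Matrix.mul_assoc] at hRelf
  have hinj : Function.Injective (i.comp (px (KK k))) := i.injective.comp (px_injective _)
  obtain ⟨hfin, -⟩ := fm_transport hinj hFMf hRelf
  refine ⟨g, (B4.map (algebraMap (Pk k) (R2 k)) * Q).map hA * D.map hBh, _, _, i, v, hg, hgp,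
    ?_, hv, ?_⟩
  · exact (isUnit_map _ ((isUnit_map _ hB4).mul hQu)).mul (isUnit_map _ hDu)
  · have h5 : ((B4.map (algebraMap (Pk k) (R2 k)) * Q).map hA * D.map hBh).map i *
        Umat p τ v = (B4.map (algebraMap (Pk k) (R2 k)) * Q).map (i.comp hA) *
          (D.map (i.comp hBh) * Umat p τ v) := by
      rw [Matrix.map_mul, ← Matrix.mul_assoc]
      rfl
    rw [h5]
    exact hfin

end

end Pool.Agent.Helper54.FP
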