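import Pool.Agent.Helper54.FP.Inst
import Pool.Agent.Helper54.PW.Basic
import Pool.Agent.Helper54.FP.LaurentMaps
import Pool.Agent.Helper37.FP.Umat
import Pool.Agent.Helper55.FP.Left
import Pool.Agent.Helper97.FP.Trace
import Pool.Agent.Helper67.FP.Transport
import Pool.Agent.Helper34.FP.Patch
import Pool.Agent.Helper50.FP.BaseChange
import Pool.Agent.Helper24.FP.SplitField
import Pool.Agent.Helper23.FP.AS
import Pool.Agent.Helper88.FP.Indep
import Pool.Agent.Helper86.FP.Inter
import Pool.Agent.Helper88.FP.Factor
import Pool.Agent.Helper11.FP.Interp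
import Pool.Agent.Helper11.FP.Conj
import Pool.Agent.Helper10.FP.HomE1
import Pool.Agent.Helper22.FP.HomE2
import Pool.Agent.Helper47.FP.HomNu
import Pool.Agent.Helper87.FP.HomInf
import Pool.Agent.Helper24.FP.GeomExt
import Pool.Agent.Helper11.FP.Rational
import Pool.Agent.Helper2.FP.Prim
import Pool.Agent.Helper32.FP.Specialize
import Pool.Agent.Helper8.FP.BN
import Pool.Agent.Helper91.FP.Point
import Pool.Agent.Helper75.FP.LocalGlobal
import Pool.Agent.Helper72.FP.Integral
import Pool.Agent.Helper35.FP.FMofY
import Pool.Agent.Helper87.FP.LocalAS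
import Pool.Agent.Helper97.FP.PCovOfCover
import Pool.Agent.Helper35.FP.CoverOfPCov

/-!
# All modules for formal patching
-/
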