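import Pool.Agent.Helper54.FP.All

/-!
# One patching step
-/

set_option autoImplicit false
set_option linter.unusedVariables false
set_option linter.unusedSectionVars false
set_option linter.style.haveILetI false

namespace Pool.Agent.Helper54.FP

section
variable {p : ℕ} [Fact p.Prime] {G : Type} [Group G] [Fintype G] [DecidableEq G]
  {k : Type} [Field k]

theorem px_X {F : Type} [CommRing F] : px F Polynomial.X = HahnSeries.single (-1 : ℤ) (1 : F) := by
  simp [px]

theorem px_C {F : Type} [CommRing F] (c : F) : px F (Polynomial.C c) = HahnSeries.C c := by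
  simp [px]

theorem isUnit_map {A B : Type} [CommRing A] [CommRing B] (f : A →+* B) {M : Matrix G G A}
    (h : IsUnit M) : IsUnit (M.map f) := by
  have := h.map f.mapMatrix
  exact this

theorem lm_C {k L : Type} [CommRing k] [CommRing L] (ι : k →+* L) (c : k) :
    lm ι (HahnSeries.C c) = HahnSeries.C (ι c) := by
  ext n
  rw [lm_coeff, HahnSeries.C_apply, HahnSeries.C_apply, HahnSeries.coeff_single,
    HahnSeries.coeff_single]
  split_ifs <;> simp

theorem lm_single {k L : Type} [CommRing k] [CommRing L] (ι : k →+* L) (n : ℤ) (c : k) :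
    lm ι (HahnSeries.single n c) = HahnSeries.single n (ι c) := by
  ext m
  rw [lm_coeff, HahnSeries.coeff_single, HahnSeries.coeff_single]
  split_ifs <;> simp

theorem charP_LS (p : ℕ) (F : Type) [Field F] [CharP F p] : CharP (LaurentSeries F) p :=
  charP_of_injective_ringHom (f := (HahnSeries.C : F →+* LaurentSeries F)) (RingHom.injective _) p

theorem charP_hom {F Ω : Type} [Field F] [CharP F p] [Field Ω] (i : F →+* Ω) : CharP Ω p :=
  charP_of_injective_ringHom i.injective p

theorem t1_unit (k : Type) [Field k] :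
    t1 k * ((isUnit_R1_X k).unit⁻¹ : (R1 k)ˣ) = 1 := by
  exact IsUnit.mul_val_inv (isUnit_R1_X k)

theorem w2_unit (k : Type) [Field k] :
    w2 k * ((isUnit_R2 k).2.unit⁻¹ : (R2 k)ˣ) = 1 := by
  exact IsUnit.mul_val_inv (isUnit_R2 k).2

attribute [local irreducible] φ1 φ2 c1 c2 α1 α2 θ2 θ β1 t1 z1 w2 t2 iK φ0 lm px Umat

/-- the data of a cover over `k`, transported to the disc ring -/
theorem disc_cover [CharP k p] {τ : G} {H : Subgroup G} {f : Polynomial k}
    {C : Matrix G G (LaurentSeries k)} {Ω : Type} [Field Ω] {i : LaurentSeries k →+* Ω} {u : Ω}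
    (hf : 0 < f.natDegree) (hfp : ¬ p ∣ f.natDegree) (hu : u ^ p - u = i (px k f))
    (hFM : FM p (i.comp (px k)) (C.map i * Umat p τ u) H)
    (u1 : Om k) (hu1 : u1 ^ p - u1 = θ k (px k f)) :
    ∃ (L : Type) (_ : Field L) (ι : k →+* L) (y : L) (YL : Matrix G G L),
      Function.Injective (Polynomial.eval₂RingHom ι y) ∧
      (∀ g ∈ H, ∃ δ : L →+* L, δ.comp ι = ι ∧ δ y = y ∧ YL.map δ = actM g YL) ∧
      ∀ e : R1 k →+* LaurentSeries L, Function.Injective e → e.comp (c1 k) = lm ι →
        e (z1 k) = HahnSeries.C y * HahnSeries.single 1 1 →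
        (∀ δ : L →+* L, δ.comp ι = ι → δ y = y → (lm δ).comp e = e) →
        FM p (φ1 k) (C.map (θ k) * Umat p τ u1) H ∧
        Rel (φ1 k) (C.map (θ k) * Umat p τ u1) e
          (YL.map (HahnSeries.C : L →+* LaurentSeries L)) := by
  haveI : CharP (LaurentSeries k) p := charP_LS p k
  haveI : CharP Ω p := charP_hom i
  have hinj : Function.Injective (i.comp (px k)) := i.injective.comp (px_injective k)
  obtain ⟨L, _, φL, YL, incl, hincl, hYL, hδ⟩ := exists_field hFM
  have hφL : Function.Injective φL := by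
    intro a b hab
    apply hinj
    rw [← hincl, RingHom.comp_apply, RingHom.comp_apply, hab]
  have hev : Polynomial.eval₂RingHom (φL.comp Polynomial.C) (φL Polynomial.X) = φL := by
    apply Polynomial.ringHom_ext
    · intro a; simp
    · simp
  refine ⟨L, inferInstance, φL.comp Polynomial.C, φL Polynomial.X, YL, ?_, ?_, ?_⟩
  · rw [hev]; exact hφL
  · intro g hg
    obtain ⟨δ, h1, h2⟩ := hδ g hg
    refine ⟨δ, ?_, ?_, h2⟩
    · rw [← RingHom.comp_assoc, h1]
    · rw [← RingHom.comp_apply, h1]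
  intro e he he1 he2 he3
  have heβ : e.comp (β1 k) = (HahnSeries.C : L →+* LaurentSeries L).comp φL := by
    apply Polynomial.ringHom_ext
    · intro a
      have h1 : β1 k (Polynomial.C a) = c1 k (HahnSeries.C a) := by simp [β1]
      rw [RingHom.comp_apply, h1, ← RingHom.comp_apply, he1, lm_C]
      rfl
    · have h1 : β1 k Polynomial.X * t1 k = z1 k := by
        have h2 : β1 k Polynomial.X = z1 k * ((isUnit_R1_X k).unit⁻¹ : (R1 k)ˣ) := by simp [β1]
        rw [h2, mul_assoc, mul_comm _ (t1 k), t1_unit, mul_one]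
      have h3 : e (t1 k) = HahnSeries.single (1 : ℤ) (1 : L) := by
        rw [← c1_single, ← RingHom.comp_apply, he1, lm_single, map_one]
      have h4 := congrArg e h1
      rw [map_mul, h3, he2] at h4
      have h5 : (HahnSeries.single (1 : ℤ) (1 : L) : LaurentSeries L) ≠ 0 := by
        rw [Ne, HahnSeries.single_eq_zero_iff]
        exact one_ne_zero
      rw [RingHom.comp_apply, RingHom.comp_apply]
      exact mul_right_cancel₀ h5 h4
  have hS : Rel (i.comp (px k)) (C.map i * Umat p τ u) (e.comp (β1 k))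
      (YL.map (HahnSeries.C : L →+* LaurentSeries L)) := by
    rw [heβ, ← hincl, ← hYL]
    exact (Rel.of_hom_injective incl incl.injective φL YL).trans
      (Rel.of_hom (HahnSeries.C : L →+* LaurentSeries L) φL YL)
  have hδ' : ∀ g ∈ H, ∃ δ : LaurentSeries L →+* LaurentSeries L, δ.comp e = e ∧
      (YL.map (HahnSeries.C : L →+* LaurentSeries L)).map δ =
        actM g (YL.map (HahnSeries.C : L →+* LaurentSeries L)) := by
    intro g hg
    obtain ⟨δ, h1, h2⟩ := hδ g hg
    refine ⟨lm δ, ?_, ?_⟩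
    · apply he3
      · rw [← RingHom.comp_assoc, h1]
      · rw [← RingHom.comp_apply, h1]
    · have h3 : (YL.map (HahnSeries.C : L →+* LaurentSeries L)).map (lm δ) =
          (YL.map δ).map (HahnSeries.C : L →+* LaurentSeries L) := by
        ext1 a b
        simp only [Matrix.map_apply, lm_C]
      rw [h3, h2]
      rfl
  have hind := indep_as (p := p) i i.injective (RingHom.id (LaurentSeries k))
    Function.injective_id (px k f) f rfl hf hfp u hu
  have h2 : Rel (i.comp (px k)) (C.map i * Umat p τ u) ((φ1 k).comp (β1 k))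
      (C.map (θ k) * Umat p τ u1) := by
    rw [φ1_β1]
    exact rel_as (px k) hu hu1 hind τ C
  have hF := fm_baseChange (β1 k) hinj hFM e (YL.map (HahnSeries.C : L →+* LaurentSeries L)) hS hδ'
  have hR := rel_baseChange (β1 k) hFM e he
    (YL.map (HahnSeries.C : L →+* LaurentSeries L)) hS hδ' (φ1 k) _ h2
  haveI : CharP L p := charP_hom (φL.comp Polynomial.C)
  haveI : CharP (LaurentSeries L) p := charP_LS p L
  exact fm_transport (φ1_injective k) hF hR

/-- the gluing step: the two fundamental matrices differ by a matrix close to `1` -/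
theorem glue_step [CharP k p] {τ : G} {H1 H2 : Subgroup G} (C : Matrix G G (LaurentSeries k))
    (hC : IsUnit C) (m : ℕ)
    (hm : ∀ M : Matrix G G (A0 k), ∃ M' : Matrix G G (A0 k),
      C.map (θ k) * ((PowerSeries.X : A0 k) ^ m • M).map (iA k) * (C⁻¹).map (θ k) =
        ((PowerSeries.X : A0 k) • M').map (iA k))
    (u1 : Om k) (hdisc : FM p (φ1 k) (C.map (θ k) * Umat p τ u1) H1) (M : Matrix G G (A0 k))
    (hreg : FM p (φ2 k)
      (C.map (θ k) * (1 + (PowerSeries.X : A0 k) ^ m • M).map (iA k) * Umat p τ u1) H2)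
    (a : ℕ) (c : k) :
    ∃ B1 B2 : Matrix G G (Pk k), IsUnit B1 ∧ IsUnit B2 ∧
      (B1.map (algebraMap (Pk k) (R1 k))).map (φ1 k) * (C.map (θ k) * Umat p τ u1) =
        (B2.map (algebraMap (Pk k) (R2 k))).map (φ2 k) *
          (C.map (θ k) * (1 + (PowerSeries.X : A0 k) ^ m • M).map (iA k) * Umat p τ u1) ∧
      FM p (φ0 k a c) ((B2.map (algebraMap (Pk k) (R2 k))).map (φ2 k) *
          (C.map (θ k) * (1 + (PowerSeries.X : A0 k) ^ m • M).map (iA k) * Umat p τ u1))
        (H1 ⊔ H2) := by
  obtain ⟨M', hM'⟩ := hm M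
  obtain ⟨B1, B2, hB1, hB2, hB⟩ := factorization M'
  have e1 : (B1.map (algebraMap (Pk k) (R1 k))).map (φ1 k) = (B1.map (a1 k)).map (iA k) := by
    ext1 i j
    simp only [Matrix.map_apply, φ1_algebraMap]
  have e2 : (B2.map (algebraMap (Pk k) (R2 k))).map (φ2 k) = (B2.map (a2 k)).map (iA k) := by
    ext1 i j
    simp only [Matrix.map_apply, φ2_algebraMap]
  have hCC : C.map (θ k) * (C⁻¹).map (θ k) = 1 := by
    rw [← Matrix.map_mul, Matrix.mul_nonsing_inv _ ((Matrix.isUnit_iff_isUnit_det _).1 hC)]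
    exact Matrix.map_one _ (map_zero _) (map_one _)
  have hCC' : (C⁻¹).map (θ k) * C.map (θ k) = 1 := by
    rw [← Matrix.map_mul, Matrix.nonsing_inv_mul _ ((Matrix.isUnit_iff_isUnit_det _).1 hC)]
    exact Matrix.map_one _ (map_zero _) (map_one _)
  have hA : C.map (θ k) * (1 + (PowerSeries.X : A0 k) ^ m • M).map (iA k) * Umat p τ u1 =
      (1 + (PowerSeries.X : A0 k) • M').map (iA k) * (C.map (θ k) * Umat p τ u1) := by
    have h1 : (1 + (PowerSeries.X : A0 k) • M').map (iA k) =
        C.map (θ k) * (1 + (PowerSeries.X : A0 k) ^ m • M).map (iA k) * (C⁻¹).map (θ k) := by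
      rw [Matrix.map_add _ (map_add _), Matrix.map_add _ (map_add _), mul_add, add_mul, hM',
        Matrix.map_one _ (map_zero _) (map_one _), mul_one, hCC]
    rw [h1]
    simp only [Matrix.mul_assoc]
    rw [← Matrix.mul_assoc ((C⁻¹).map (θ k)), hCC', Matrix.one_mul]
  have hkey : (B1.map (algebraMap (Pk k) (R1 k))).map (φ1 k) * (C.map (θ k) * Umat p τ u1) =
        (B2.map (algebraMap (Pk k) (R2 k))).map (φ2 k) *
          (C.map (θ k) * (1 + (PowerSeries.X : A0 k) ^ m • M).map (iA k) * Umat p τ u1) := by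
    rw [hA, e1, e2, ← hB, Matrix.map_mul]
    simp only [Matrix.mul_assoc]
  refine ⟨B1, B2, hB1, hB2, hkey, ?_⟩
  have f1 : FM p (φ1 k) ((B2.map (algebraMap (Pk k) (R2 k))).map (φ2 k) *
          (C.map (θ k) * (1 + (PowerSeries.X : A0 k) ^ m • M).map (iA k) * Umat p τ u1)) H1 := by
    rw [← hkey]
    exact fm_left hdisc _ (isUnit_map _ hB1)
  have f2 := fm_left hreg (B2.map (algebraMap (Pk k) (R2 k))) (isUnit_map _ hB2)
  have g1 : (φ1 k).comp (α1 k a c) = φ0 k a c := by rw [φ0]
  exact fm_patch (α1 k a c) (α2 k a c) g1 (φ2_α2 a c) (φ0_injective k a c)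
    (fun r1 r2 h => inter a c r1 r2 h) f1 f2

end

end Pool.Agent.Helper54.FP
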