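import Pool.Agent.Helper54.FP.Defs

/-!
# Basic facts about `ev`, `actM`, `sh`, `Rel`
-/

set_option autoImplicit false
set_option linter.unusedSectionVars false
set_option linter.unusedSimpArgs false

namespace Pool.Agent.Helper54.FP

section
variable {G R Ω Ω' Ω'' : Type} [CommRing R] [CommRing Ω] [CommRing Ω'] [CommRing Ω'']

@[simp] theorem ev_C (φ : R →+* Ω) (Y : Matrix G G Ω) (r : R) :
    ev φ Y (MvPolynomial.C r) = φ r := by simp [ev]

@[simp] theorem ev_X (φ : R →+* Ω) (Y : Matrix G G Ω) (i j : G) :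
    ev φ Y (MvPolynomial.X (i, j)) = Y i j := by simp [ev]

theorem ev_map (δ : Ω →+* Ω') (φ : R →+* Ω) (Y : Matrix G G Ω) (F : MvPolynomial (G × G) R) :
    δ (ev φ Y F) = ev (δ.comp φ) (Y.map δ) F := by
  rw [ev, ev, MvPolynomial.coe_eval₂Hom, MvPolynomial.coe_eval₂Hom]
  simpa [Function.comp_def] using MvPolynomial.eval₂_comp_left δ φ (fun ij : G × G => Y ij.1 ij.2) F

/-- change of the coefficient ring -/
theorem ev_mapCoeff {R' : Type} [CommRing R'] (α : R →+* R') (φ : R' →+* Ω) (Y : Matrix G G Ω)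
    (F : MvPolynomial (G × G) R) : ev φ Y (MvPolynomial.map α F) = ev (φ.comp α) Y F := by
  simp [ev, MvPolynomial.eval₂_map]

theorem Rel.refl (φ : R →+* Ω) (Y : Matrix G G Ω) : Rel φ Y φ Y := fun _ h => h

theorem Rel.trans {φ : R →+* Ω} {Y : Matrix G G Ω} {φ' : R →+* Ω'} {Y' : Matrix G G Ω'}
    {φ'' : R →+* Ω''} {Y'' : Matrix G G Ω''} (h : Rel φ Y φ' Y') (h' : Rel φ' Y' φ'' Y'') :
    Rel φ Y φ'' Y'' := fun F hF => h' F (h F hF)

theorem Rel.of_hom (δ : Ω →+* Ω') (φ : R →+* Ω) (Y : Matrix G G Ω) :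
    Rel φ Y (δ.comp φ) (Y.map δ) := by
  intro F hF
  rw [← ev_map, hF, map_zero]

theorem Rel.of_hom_injective (δ : Ω →+* Ω') (hδ : Function.Injective δ) (φ : R →+* Ω)
    (Y : Matrix G G Ω) : Rel (δ.comp φ) (Y.map δ) φ Y := by
  intro F hF
  rw [← ev_map] at hF
  exact hδ (hF.trans (map_zero _).symm)

/-- restriction of the coefficient ring -/
theorem Rel.restrict {R' : Type} [CommRing R'] (α : R →+* R') {φ : R' →+* Ω} {Y : Matrix G G Ω}
    {φ' : R' →+* Ω'} {Y' : Matrix G G Ω'} (h : Rel φ Y φ' Y') :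
    Rel (φ.comp α) Y (φ'.comp α) Y' := by
  intro F hF
  rw [← ev_mapCoeff] at hF ⊢
  exact h _ hF

/-- equality of two polynomial expressions is preserved -/
theorem Rel.eq {φ : R →+* Ω} {Y : Matrix G G Ω} {φ' : R →+* Ω'} {Y' : Matrix G G Ω'}
    (h : Rel φ Y φ' Y') {F F' : MvPolynomial (G × G) R} (hF : ev φ Y F = ev φ Y F') :
    ev φ' Y' F = ev φ' Y' F' := by
  have := h (F - F') (by rw [map_sub, hF, sub_self])
  rwa [map_sub, sub_eq_zero] at this

variable [Group G]

@[simp] theorem actM_apply (g : G) (Y : Matrix G G Ω) (i j : G) : actM g Y i j = Y i (g * j) := rfl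

@[simp] theorem actM_one (Y : Matrix G G Ω) : actM (1 : G) Y = Y := by
  ext i j; simp

theorem actM_actM (g h : G) (Y : Matrix G G Ω) : actM g (actM h Y) = actM (h * g) Y := by
  ext i j; simp [mul_assoc]

theorem actM_map (δ : Ω →+* Ω') (g : G) (Y : Matrix G G Ω) :
    (actM g Y).map δ = actM g (Y.map δ) := rfl

theorem actM_mul [Fintype G] (g : G) (A Y : Matrix G G Ω) : actM g (A * Y) = A * actM g Y := by
  ext i j
  simp [Matrix.mul_apply]

theorem ev_sh (φ : R →+* Ω) (Y : Matrix G G Ω) (g : G) (F : MvPolynomial (G × G) R) :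
    ev φ Y (sh g F) = ev φ (actM g Y) F := by
  simp only [ev, sh, MvPolynomial.coe_eval₂Hom, AlgHom.toRingHom_eq_coe, RingHom.coe_coe,
    MvPolynomial.eval₂_rename]
  rfl

end

/-- the matrix `C.map φ * Y` as a substitution -/
theorem ev_mul_left {G R Ω : Type} [Fintype G] [CommRing R] [CommRing Ω] (φ : R →+* Ω)
    (C : Matrix G G R) (Y : Matrix G G Ω) (F : MvPolynomial (G × G) R) :
    ev φ (C.map φ * Y) F = ev φ Y (MvPolynomial.bind₁
      (fun ij : G × G => ∑ l, MvPolynomial.C (C ij.1 l) * MvPolynomial.X (l, ij.2)) F) := by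
  rw [ev, ev, MvPolynomial.eval₂Hom_bind₁]
  congr 2
  funext ij
  simp [Matrix.mul_apply]

/-- left multiplication by a matrix with entries in the coefficient ring preserves relations -/
theorem Rel.mul_left {G R Ω Ω' : Type} [Fintype G] [CommRing R] [CommRing Ω] [CommRing Ω']
    {φ : R →+* Ω} {Y : Matrix G G Ω} {φ' : R →+* Ω'} {Y' : Matrix G G Ω'} (h : Rel φ Y φ' Y')
    (C : Matrix G G R) : Rel φ (C.map φ * Y) φ' (C.map φ' * Y') := by
  intro F hF
  rw [ev_mul_left] at hF ⊢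
  exact h _ hF

end Pool.Agent.Helper54.FP
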