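import Pool.Agent.Helper54.FP.Ext
import Pool.Agent.Helper92.PW.DefsReal

/-!
# Definitions for formal patching of covers of the affine line

A `G`-cover of the affine line over `F` is described by an invertible matrix `Y` indexed by `G × G` with
`Y^(p) = Ψ Y` for an invertible matrix `Ψ` over `F[X]`; the group acts by permuting the columns,
`(g Y) i j = Y i (g j)`.  `FM p φ Y H` says that the Galois group over `R` (embedded by `φ`) is `H`.
-/

set_option autoImplicit false
open scoped Pointwise

namespace Pool.Agent.Helper54.FP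

section FMdefs
variable {G R Ω Ω' : Type} [CommRing R] [CommRing Ω] [CommRing Ω']

/-- evaluation of a polynomial in the entries of the matrix `Y` -/
noncomputable def ev (φ : R →+* Ω) (Y : Matrix G G Ω) : MvPolynomial (G × G) R →+* Ω :=
  MvPolynomial.eval₂Hom φ (fun ij => Y ij.1 ij.2)

/-- every polynomial relation over `R` between the entries of `Y` holds for `Y'` -/
def Rel (φ : R →+* Ω) (Y : Matrix G G Ω) (φ' : R →+* Ω') (Y' : Matrix G G Ω') : Prop :=
  ∀ F : MvPolynomial (G × G) R, ev φ Y F = 0 → ev φ' Y' F = 0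

variable [Group G]

/-- the permutation of the columns by left multiplication with `g` -/
def actM (g : G) (Y : Matrix G G Ω) : Matrix G G Ω := fun i j => Y i (g * j)

/-- the corresponding substitution for polynomials -/
noncomputable def sh (g : G) : MvPolynomial (G × G) R →+* MvPolynomial (G × G) R :=
  (MvPolynomial.rename (fun ij : G × G => (ij.1, g * ij.2))).toRingHom

/-- `Y` is a fundamental matrix of an etale Frobenius module over `R` with Galois group `H` -/
structure FM (p : ℕ) [Fintype G] [DecidableEq G] (φ : R →+* Ω) (Y : Matrix G G Ω)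
    (H : Subgroup G) : Prop where
  unit : IsUnit Y
  frob : ∃ Ψ : Matrix G G R, IsUnit Ψ ∧ Y.map (fun y => y ^ p) = Ψ.map φ * Y
  sym : ∀ g ∈ H, ∀ F : MvPolynomial (G × G) R, ev φ Y F = 0 → ev φ (actM g Y) F = 0
  fix : ∀ F : MvPolynomial (G × G) R, (∀ g ∈ H, ev φ (actM g Y) F = ev φ Y F) →
    ∃ r : R, ev φ Y F = φ r

/-- `U(u) = ∑_a (1 - (u-a)^(p-1)) τ^a`, so that `U(u + v) = U(u) U(v)` and `U(1)` is the permutation
matrix of `τ` -/
def Umat (p : ℕ) [DecidableEq G] (τ : G) (u : Ω) : Matrix G G Ω := fun i j =>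
  ∑ a ∈ Finset.range p, if i = τ ^ a * j then 1 - (u - (a : Ω)) ^ (p - 1) else 0

end FMdefs

/-- `F[X] → F((x))`, `X ↦ 1/x` -/
noncomputable def px (F : Type) [CommRing F] : Polynomial F →+* LaurentSeries F :=
  Polynomial.eval₂RingHom (HahnSeries.C) (HahnSeries.single (-1 : ℤ) (1 : F))

theorem px_coeff {F : Type} [CommRing F] (q : Polynomial F) (n : ℤ) :
    (px F q).coeff n = if n ≤ 0 then q.coeff (-n).toNat else 0 := by
  induction q using Polynomial.induction_on' with
  | add p q hp hq =>
    rw [map_add, HahnSeries.coeff_add, hp, hq]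
    split_ifs <;> simp
  | monomial m a =>
    have : px F (Polynomial.monomial m a) = HahnSeries.single (-(m : ℤ)) a := by
      rw [px, Polynomial.coe_eval₂RingHom, Polynomial.eval₂_monomial, HahnSeries.single_pow,
        HahnSeries.C_apply, HahnSeries.single_mul_single]
      simp
    rw [this, HahnSeries.coeff_single, Polynomial.coeff_monomial]
    by_cases h : n ≤ 0
    · rw [if_pos h]
      by_cases h2 : n = -(m : ℤ)
      · rw [if_pos h2, if_pos (by omega)]
      · rw [if_neg h2, if_neg (by omega)]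
    · rw [if_neg h, if_neg (by omega)]

theorem px_injective (F : Type) [CommRing F] : Function.Injective (px F) := by
  rw [injective_iff_map_eq_zero]
  intro q hq
  ext n
  have := px_coeff q (-(n : ℤ))
  rw [hq, HahnSeries.coeff_zero, if_pos (by omega)] at this
  rw [Polynomial.coeff_zero, this]
  simp

/-- covers of the affine line over `F` with group `H`, with local group `⟨τ⟩` of order `p` at infinity:
over `F((x))` the matrix `Y` is `C U(u)` with `u^p - u = g(1/x)`, `g` of positive degree prime to `p` -/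
def PCov (p : ℕ) {G : Type} [Group G] [Fintype G] [DecidableEq G] (F : Type) [Field F] (τ : G)
    (H : Subgroup G) : Prop :=
  ∃ (g : Polynomial F) (C : Matrix G G (LaurentSeries F)) (Ω : Type) (_ : Field Ω)
    (i : LaurentSeries F →+* Ω) (u : Ω),
    0 < g.natDegree ∧ ¬ p ∣ g.natDegree ∧ IsUnit C ∧ u ^ p - u = i (px F g) ∧
    FM p (i.comp (px F)) (C.map i * Umat p τ u) H

/-- extension of a ring homomorphism `R⟦t⟧ → S` to `R((t))` -/
noncomputable def lK (k : Type) [CommRing k] {S : Type} [CommRing S] (f : PowerSeries k →+* S)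
    (h : IsUnit (f PowerSeries.X)) : LaurentSeries k →+* S :=
  IsLocalization.lift (M := Submonoid.powers (PowerSeries.X : PowerSeries k)) (g := f) (by
    rintro ⟨_, n, rfl⟩
    simpa using h.pow n)

theorem lK_algebraMap (k : Type) [CommRing k] {S : Type} [CommRing S] (f : PowerSeries k →+* S)
    (h : IsUnit (f PowerSeries.X)) (F : PowerSeries k) :
    lK k f h (algebraMap (PowerSeries k) (LaurentSeries k) F) = f F :=
  IsLocalization.lift_eq _ _

theorem isUnit_ofX (L : Type) [CommRing L] :
    IsUnit (algebraMap (PowerSeries L) (LaurentSeries L) PowerSeries.X) :=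
  IsLocalization.map_units (M := Submonoid.powers (PowerSeries.X : PowerSeries L)) _
    ⟨PowerSeries.X, 1, pow_one _⟩

/-- `k((x)) → L((x))` for a ring homomorphism `k → L` -/
noncomputable def lm {k L : Type} [CommRing k] [CommRing L] (ι : k →+* L) :
    LaurentSeries k →+* LaurentSeries L :=
  lK k ((algebraMap (PowerSeries L) (LaurentSeries L)).comp (PowerSeries.map ι)) (by
    rw [RingHom.comp_apply, PowerSeries.map_X]
    exact isUnit_ofX L)

/-! ## The rings for patching -/
section rings
variable (k : Type) [Field k]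

/-- `k[z,1/z]⟦t⟧` -/
abbrev A0 : Type := PowerSeries (LaurentPolynomial k)

/-- `k[z]⟦t⟧` (variable `z` of the disc) or `k[w]⟦t⟧` (variable `w = 1/z` of the complement) -/
abbrev Pk : Type := PowerSeries (Polynomial k)

/-- `k[z]⟦t⟧[1/t]` -/
abbrev R1 : Type := Localization.Away (PowerSeries.X : Pk k)

/-- `k[w]⟦t⟧[1/t,1/w]` -/
abbrev R2 : Type := Localization.Away (PowerSeries.X * PowerSeries.C Polynomial.X : Pk k)

/-- the base field `k((t))` -/
abbrev KK : Type := LaurentSeries k

/-- a big field -/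
abbrev Om : Type := AlgebraicClosure (FractionRing (A0 k))

/-- the inclusion of `k[z,1/z]⟦t⟧` -/
noncomputable def iA : A0 k →+* Om k :=
  (algebraMap (FractionRing (A0 k)) (Om k)).comp (algebraMap (A0 k) (FractionRing (A0 k)))

/-- `k[z]⟦t⟧ → k[z,1/z]⟦t⟧` -/
noncomputable def a1 : Pk k →+* A0 k := PowerSeries.map Polynomial.toLaurent

/-- `k[w]⟦t⟧ → k[z,1/z]⟦t⟧`, `w ↦ 1/z` -/
noncomputable def a2 : Pk k →+* A0 k :=
  PowerSeries.map ((LaurentPolynomial.invert (R := k)).toRingEquiv.toRingHom.comp
    Polynomial.toLaurent)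

theorem iA_injective : Function.Injective (iA k) :=
  (algebraMap (FractionRing (A0 k)) (Om k)).injective.comp
    (IsFractionRing.injective (A0 k) (FractionRing (A0 k)))

theorem a1_X : a1 k PowerSeries.X = PowerSeries.X := by simp [a1]
theorem a2_X : a2 k PowerSeries.X = PowerSeries.X := by simp [a2]
theorem a1_C (q : Polynomial k) : a1 k (PowerSeries.C q) = PowerSeries.C q.toLaurent := by
  simp [a1]
theorem a2_C (q : Polynomial k) :
    a2 k (PowerSeries.C q) = PowerSeries.C (LaurentPolynomial.invert q.toLaurent) := by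
  simp [a2]

theorem isUnit_iA_X : IsUnit (iA k PowerSeries.X) := by
  rw [isUnit_iff_ne_zero]
  intro h
  exact PowerSeries.X_ne_zero ((iA_injective k) (h.trans (map_zero _).symm))

theorem isUnit_iA_CT (n : ℤ) : IsUnit (iA k (PowerSeries.C (LaurentPolynomial.T n))) := by
  apply IsUnit.map
  apply IsUnit.map
  exact LaurentPolynomial.isUnit_T n

/-- `k[z]⟦t⟧[1/t]` in the big field -/
noncomputable def φ1 : R1 k →+* Om k :=
  IsLocalization.Away.lift (PowerSeries.X : Pk k) (g := (iA k).comp (a1 k))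
    (by rw [RingHom.comp_apply, a1_X]; exact isUnit_iA_X k)

/-- `k[w]⟦t⟧[1/t,1/w]` in the big field -/
noncomputable def φ2 : R2 k →+* Om k :=
  IsLocalization.Away.lift (PowerSeries.X * PowerSeries.C Polynomial.X : Pk k)
    (g := (iA k).comp (a2 k))
    (by
      rw [RingHom.comp_apply, map_mul, a2_X, a2_C, map_mul, Polynomial.toLaurent_X,
        LaurentPolynomial.invert_T]
      exact (isUnit_iA_X k).mul (isUnit_iA_CT k _))

theorem isUnit_R1_X : IsUnit (algebraMap (Pk k) (R1 k) PowerSeries.X) :=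
  IsLocalization.Away.algebraMap_isUnit _

theorem isUnit_R2 : IsUnit (algebraMap (Pk k) (R2 k) PowerSeries.X) ∧
    IsUnit (algebraMap (Pk k) (R2 k) (PowerSeries.C Polynomial.X)) := by
  have h : IsUnit (algebraMap (Pk k) (R2 k) (PowerSeries.X * PowerSeries.C Polynomial.X)) :=
    IsLocalization.Away.algebraMap_isUnit _
  rw [map_mul] at h
  exact ⟨isUnit_of_mul_isUnit_left h, isUnit_of_mul_isUnit_right h⟩

/-- `k((t)) → k[z]⟦t⟧[1/t]` -/
noncomputable def c1 : KK k →+* R1 k :=
  lK k ((algebraMap (Pk k) (R1 k)).comp (PowerSeries.map Polynomial.C)) (by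
    simpa using isUnit_R1_X k)

/-- `k((t)) → k[w]⟦t⟧[1/t,1/w]` -/
noncomputable def c2 : KK k →+* R2 k :=
  lK k ((algebraMap (Pk k) (R2 k)).comp (PowerSeries.map Polynomial.C)) (by
    simpa using (isUnit_R2 k).1)

/-- `k((t))` in the big field -/
noncomputable def iK : KK k →+* Om k := (φ1 k).comp (c1 k)

/-- the elements `t`, `z` of the disc ring -/
noncomputable def t1 : R1 k := algebraMap (Pk k) (R1 k) PowerSeries.X
noncomputable def z1 : R1 k := algebraMap (Pk k) (R1 k) (PowerSeries.C Polynomial.X)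

/-- the elements `t`, `w` of the complement ring -/
noncomputable def t2 : R2 k := algebraMap (Pk k) (R2 k) PowerSeries.X
noncomputable def w2 : R2 k := algebraMap (Pk k) (R2 k) (PowerSeries.C Polynomial.X)

/-- `k((t))[X] → k[z]⟦t⟧[1/t]`, `X ↦ c + t^a z` -/
noncomputable def α1 (a : ℕ) (c : k) : Polynomial (KK k) →+* R1 k :=
  Polynomial.eval₂RingHom (c1 k) (c1 k (HahnSeries.C c) + t1 k ^ a * z1 k)

/-- `k((t))[X] → k[w]⟦t⟧[1/t,1/w]`, `X ↦ c + t^a / w` -/
noncomputable def α2 (a : ℕ) (c : k) : Polynomial (KK k) →+* R2 k :=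
  Polynomial.eval₂RingHom (c2 k)
    (c2 k (HahnSeries.C c) + t2 k ^ a * ((isUnit_R2 k).2.unit⁻¹ : (R2 k)ˣ))

/-- `k((t))[X]` in the big field, `X ↦ c + t^a z` -/
noncomputable def φ0 (a : ℕ) (c : k) : Polynomial (KK k) →+* Om k := (φ1 k).comp (α1 k a c)

/-- `k((v)) → k[w]⟦t⟧[1/t,1/w]`, `v ↦ t w` -/
noncomputable def θ2 : LaurentSeries k →+* R2 k :=
  lK k ((algebraMap (Pk k) (R2 k)).comp
      ((PowerSeries.rescale (Polynomial.X : Polynomial k)).comp (PowerSeries.map Polynomial.C))) (by
    rw [RingHom.comp_apply, RingHom.comp_apply, PowerSeries.map_X, PowerSeries.rescale_X, map_mul]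
    exact (isUnit_R2 k).2.mul (isUnit_R2 k).1)

/-- `k((v))` in the big field, `v ↦ t w = t/z` -/
noncomputable def θ : LaurentSeries k →+* Om k := (φ2 k).comp (θ2 k)

/-- `k[y] → k[z]⟦t⟧[1/t]`, `y ↦ z/t` -/
noncomputable def β1 : Polynomial k →+* R1 k :=
  Polynomial.eval₂RingHom ((c1 k).comp HahnSeries.C)
    (z1 k * ((isUnit_R1_X k).unit⁻¹ : (R1 k)ˣ))

end rings

/-- `k(X) → k((x))`, `X ↦ 1/x` -/
noncomputable def rx (k : Type) [Field k] : RatFunc k →+* LaurentSeries k :=
  RatFunc.liftRingHom (px k) (by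
    intro q hq
    rw [Submonoid.mem_comap, mem_nonZeroDivisors_iff_ne_zero]
    rw [mem_nonZeroDivisors_iff_ne_zero] at hq
    exact fun h => hq (px_injective k (h.trans (map_zero _).symm)))

end Pool.Agent.Helper54.FP
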