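import Mathlib

/-!
# Two ring homomorphisms between power series rings

`ext φ : A⟦X⟧ → B⟦X⟧` is the `X`-adically continuous extension of `φ : A → B⟦X⟧` with `X ↦ X`, and
`swp : A⟦X⟧⟦X⟧ → A⟦X⟧⟦X⟧` exchanges the two variables.
-/

set_option autoImplicit false
open Finset

namespace Pool.Agent.Helper54.FP

/-- the diagonal map `B⟦X⟧⟦X⟧ → B⟦X⟧` -/
noncomputable def diag (B : Type) [CommRing B] : PowerSeries (PowerSeries B) →+* PowerSeries B where
  toFun F := PowerSeries.mk fun n =>
    ∑ ij ∈ antidiagonal n, PowerSeries.coeff ij.2 (PowerSeries.coeff ij.1 F)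
  map_one' := by
    ext n
    rw [PowerSeries.coeff_mk, PowerSeries.coeff_one]
    by_cases hn : n = 0
    · subst hn
      simp
    · rw [if_neg hn]
      apply Finset.sum_eq_zero
      intro ij hij
      rw [HasAntidiagonal.mem_antidiagonal] at hij
      rw [PowerSeries.coeff_one]
      split_ifs with h
      · rw [PowerSeries.coeff_one, if_neg (by omega)]
      · simp
  map_zero' := by
    ext n
    simp
  map_add' F H := by
    ext n
    simp [Finset.sum_add_distrib]
  map_mul' F H := by
    ext n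
    rw [PowerSeries.coeff_mk, PowerSeries.coeff_mul]
    simp only [PowerSeries.coeff_mk, PowerSeries.coeff_mul, map_sum]
    -- both sides are sums over quadruples
    simp only [Finset.sum_mul_sum]
    have h1 : ∀ ij ∈ antidiagonal n, (∑ a ∈ antidiagonal ij.1, ∑ b ∈ antidiagonal ij.2,
        PowerSeries.coeff b.1 (PowerSeries.coeff a.1 F) *
          PowerSeries.coeff b.2 (PowerSeries.coeff a.2 H)) =
        ∑ ab ∈ antidiagonal ij.1 ×ˢ antidiagonal ij.2,
          PowerSeries.coeff ab.2.1 (PowerSeries.coeff ab.1.1 F) *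
          PowerSeries.coeff ab.2.2 (PowerSeries.coeff ab.1.2 H) := by
      intro ij _
      rw [Finset.sum_product]
    have h2 : ∀ ij ∈ antidiagonal n, (∑ a ∈ antidiagonal ij.1, ∑ b ∈ antidiagonal ij.2,
        PowerSeries.coeff a.2 (PowerSeries.coeff a.1 F) *
          PowerSeries.coeff b.2 (PowerSeries.coeff b.1 H)) =
        ∑ ab ∈ antidiagonal ij.1 ×ˢ antidiagonal ij.2,
          PowerSeries.coeff ab.1.2 (PowerSeries.coeff ab.1.1 F) *
          PowerSeries.coeff ab.2.2 (PowerSeries.coeff ab.2.1 H) := by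
      intro ij _
      rw [Finset.sum_product]
    rw [Finset.sum_congr rfl h1, Finset.sum_congr rfl h2, Finset.sum_sigma', Finset.sum_sigma']
    refine Finset.sum_bij'
      (fun x _ => ⟨(x.2.1.1 + x.2.2.1, x.2.1.2 + x.2.2.2), ((x.2.1.1, x.2.2.1), (x.2.1.2, x.2.2.2))⟩)
      (fun x _ => ⟨(x.2.1.1 + x.2.2.1, x.2.1.2 + x.2.2.2), ((x.2.1.1, x.2.2.1), (x.2.1.2, x.2.2.2))⟩)
      ?_ ?_ ?_ ?_ ?_
    · rintro ⟨⟨i, j⟩, ⟨⟨a, b⟩, ⟨c, d⟩⟩⟩ h
      simp only [mem_sigma, mem_product, HasAntidiagonal.mem_antidiagonal] at h ⊢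
      obtain ⟨h0, h1, h2⟩ := h
      refine ⟨?_, ?_, ?_⟩ <;> first | trivial | omega
    · rintro ⟨⟨i, j⟩, ⟨⟨a, b⟩, ⟨c, d⟩⟩⟩ h
      simp only [mem_sigma, mem_product, HasAntidiagonal.mem_antidiagonal] at h ⊢
      obtain ⟨h0, h1, h2⟩ := h
      refine ⟨?_, ?_, ?_⟩ <;> first | trivial | omega
    · rintro ⟨⟨i, j⟩, ⟨⟨a, b⟩, ⟨c, d⟩⟩⟩ h
      simp only [mem_sigma, mem_product, HasAntidiagonal.mem_antidiagonal] at h ⊢
      obtain ⟨h0, h1, h2⟩ := h
      subst h1 h2
      rfl
    · rintro ⟨⟨i, j⟩, ⟨⟨a, b⟩, ⟨c, d⟩⟩⟩ h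
      simp only [mem_sigma, mem_product, HasAntidiagonal.mem_antidiagonal] at h ⊢
      obtain ⟨h0, h1, h2⟩ := h
      subst h1 h2
      rfl
    · rintro ⟨⟨i, j⟩, ⟨⟨a, b⟩, ⟨c, d⟩⟩⟩ h
      rfl

/-- the `X`-adically continuous extension of `φ : A → B⟦X⟧` with `X ↦ X` -/
noncomputable def ext {A B : Type} [CommRing A] [CommRing B] (φ : A →+* PowerSeries B) :
    PowerSeries A →+* PowerSeries B :=
  (diag B).comp (PowerSeries.map φ)

theorem coeff_ext {A B : Type} [CommRing A] [CommRing B] (φ : A →+* PowerSeries B)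
    (F : PowerSeries A) (n : ℕ) : PowerSeries.coeff n (ext φ F) =
      ∑ ij ∈ antidiagonal n, PowerSeries.coeff ij.2 (φ (PowerSeries.coeff ij.1 F)) := by
  simp [ext, diag]

theorem ext_C {A B : Type} [CommRing A] [CommRing B] (φ : A →+* PowerSeries B) (a : A) :
    ext φ (PowerSeries.C a) = φ a := by
  ext n
  rw [coeff_ext, Finset.sum_eq_single (0, n)]
  · simp
  · rintro ⟨i, j⟩ hij hne
    rw [HasAntidiagonal.mem_antidiagonal] at hij
    dsimp only at hij ⊢
    have : i ≠ 0 := by
      rintro rfl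
      apply hne
      simp_all
    rw [PowerSeries.coeff_C, if_neg this, map_zero, map_zero]
  · intro h
    exact absurd (by simp) h

theorem ext_X {A B : Type} [CommRing A] [CommRing B] (φ : A →+* PowerSeries B) :
    ext φ PowerSeries.X = PowerSeries.X := by
  ext n
  rw [coeff_ext]
  rcases n with _ | n
  · simp
  · rw [Finset.sum_eq_single (1, n)]
    · rw [PowerSeries.coeff_one_X, map_one, PowerSeries.coeff_one, PowerSeries.coeff_X]
      by_cases h : n = 0
      · subst h; simp
      · rw [if_neg h, if_neg (by omega)]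
    · rintro ⟨i, j⟩ hij hne
      rw [HasAntidiagonal.mem_antidiagonal] at hij
      dsimp only at hij ⊢
      have : i ≠ 1 := by
        rintro rfl
        apply hne
        have : j = n := by omega
        rw [this]
      rw [PowerSeries.coeff_X, if_neg this, map_zero, map_zero]
    · intro h
      exfalso
      apply h
      rw [HasAntidiagonal.mem_antidiagonal]
      dsimp only
      omega

/-- exchange of the two variables -/
noncomputable def swp (A : Type) [CommRing A] :
    PowerSeries (PowerSeries A) →+* PowerSeries (PowerSeries A) where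
  toFun F := PowerSeries.mk fun i => PowerSeries.mk fun j =>
    PowerSeries.coeff i (PowerSeries.coeff j F)
  map_one' := by
    ext i j
    simp only [PowerSeries.coeff_mk, PowerSeries.coeff_one]
    by_cases hi : i = 0 <;> by_cases hj : j = 0 <;> simp [hi, hj, PowerSeries.coeff_one]
  map_zero' := by
    ext i j
    simp
  map_add' F H := by
    ext i j
    simp
  map_mul' F H := by
    ext i j
    simp only [PowerSeries.coeff_mk, PowerSeries.coeff_mul, map_sum]
    rw [Finset.sum_comm]

theorem coeff_swp {A : Type} [CommRing A] (F : PowerSeries (PowerSeries A)) (i j : ℕ) :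
    PowerSeries.coeff j (PowerSeries.coeff i (swp A F)) =
      PowerSeries.coeff i (PowerSeries.coeff j F) := by
  simp [swp]

theorem swp_X {A : Type} [CommRing A] :
    swp A PowerSeries.X = PowerSeries.C PowerSeries.X := by
  ext i j
  rw [coeff_swp, PowerSeries.coeff_X, PowerSeries.coeff_C]
  by_cases hi : i = 0 <;> by_cases hj : j = 1 <;>
    simp [hi, hj, PowerSeries.coeff_one, PowerSeries.coeff_X]

theorem swp_C {A : Type} [CommRing A] (f : PowerSeries A) :
    swp A (PowerSeries.C f) = PowerSeries.map PowerSeries.C f := by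
  ext i j
  rw [coeff_swp, PowerSeries.coeff_C, PowerSeries.coeff_map, PowerSeries.coeff_C]
  by_cases hj : j = 0 <;> simp [hj]

end Pool.Agent.Helper54.FP
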