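import Pool.Agent.Helper54.FP.Basic

/-!
# Instances for the patching rings
-/

set_option autoImplicit false

namespace Pool.Agent.Helper54.FP

section
variable (p : ℕ) (k : Type) [Field k]

instance : IsDomain (R1 k) :=
  IsLocalization.isDomain_localization (powers_le_nonZeroDivisors_of_noZeroDivisors
    PowerSeries.X_ne_zero)

theorem XCX_ne_zero : (PowerSeries.X * PowerSeries.C Polynomial.X : Pk k) ≠ 0 := by
  apply mul_ne_zero PowerSeries.X_ne_zero
  intro h
  exact Polynomial.X_ne_zero (PowerSeries.C_injective (h.trans (map_zero _).symm))

instance : IsDomain (R2 k) :=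
  IsLocalization.isDomain_localization (powers_le_nonZeroDivisors_of_noZeroDivisors
    (XCX_ne_zero k))

variable [CharP k p]

instance charP_R1 : CharP (R1 k) p :=
  charP_of_injective_ringHom (f := (c1 k).comp HahnSeries.C) (RingHom.injective _) p

instance charP_R2 : CharP (R2 k) p :=
  charP_of_injective_ringHom (f := (c2 k).comp HahnSeries.C) (RingHom.injective _) p

instance charP_Om : CharP (Om k) p :=
  charP_of_injective_ringHom (f := (iK k).comp HahnSeries.C) (RingHom.injective _) p

instance charP_KK : CharP (KK k) p :=
  charP_of_injective_ringHom (f := (HahnSeries.C : k →+* KK k)) (RingHom.injective _) p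

instance charP_KKX : CharP (Polynomial (KK k)) p :=
  charP_of_injective_ringHom (f := (Polynomial.C : KK k →+* Polynomial (KK k)))
    (RingHom.injective _) p

instance charP_Pk : CharP (Pk k) p :=
  charP_of_injective_ringHom
    (f := (PowerSeries.C : Polynomial k →+* Pk k).comp (Polynomial.C : k →+* Polynomial k))
    (RingHom.injective _) p

instance charP_A0 : CharP (A0 k) p :=
  charP_of_injective_ringHom
    (f := (PowerSeries.C : LaurentPolynomial k →+* A0 k).comp LaurentPolynomial.C)
    (RingHom.injective _) p

end

end Pool.Agent.Helper54.FP
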