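import Pool.Agent.Helper54.FP.Inst
import Pool.Agent.Helper54.PW.Basic

set_option autoImplicit false
set_option linter.unusedVariables false
set_option linter.unusedSectionVars false
open scoped Pointwise
open Pool.Agent.Helper54.PW

namespace Pool.Agent.Helper54.FP

section FMsec
variable {p : ℕ} [Fact p.Prime] {G : Type} [Group G] [Fintype G] [DecidableEq G]

/-! ## FP-1 (Umat.lean) -/
theorem umat_zero {Ω : Type} [CommRing Ω] [CharP Ω p] (τ : G) : Umat p τ (0 : Ω) = 1 := sorry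
theorem umat_add {Ω : Type} [CommRing Ω] [CharP Ω p] (τ : G) (hτ : τ ^ p = 1) (u v : Ω) :
    Umat p τ (u + v) = Umat p τ u * Umat p τ v := sorry
theorem actM_umat {Ω : Type} [CommRing Ω] [CharP Ω p] (τ : G) (hτ : τ ^ p = 1) (u : Ω) :
    actM τ (Umat p τ u) = Umat p τ (u + 1) := sorry
theorem umat_frob {Ω : Type} [CommRing Ω] [CharP Ω p] (τ : G) (u : Ω) :
    (Umat p τ u).map (fun y => y ^ p) = Umat p τ (u ^ p) := sorry
theorem umat_map {Ω Ω' : Type} [CommRing Ω] [CommRing Ω'] (δ : Ω →+* Ω') (τ : G) (u : Ω) :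
    (Umat p τ u).map δ = Umat p τ (δ u) := sorry
theorem umat_small {Ω : Type} [CommRing Ω] [CharP Ω p] (τ : G) (ε : Ω) :
    ∃ M : Matrix G G Ω, Umat p τ ε = 1 + ε • M := sorry

/-! ## FP-2 (Left.lean) -/
theorem fm_left {R Ω : Type} [CommRing R] [CommRing Ω] [CharP R p] [CharP Ω p] {φ : R →+* Ω}
    {Y : Matrix G G Ω} {H : Subgroup G} (h : FM p φ Y H) (C : Matrix G G R) (hC : IsUnit C) :
    FM p φ (C.map φ * Y) H := sorry
/-- the entries of the inverse matrix are polynomials in the entries of `Y` -/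
theorem fm_inv {R Ω : Type} [CommRing R] [CommRing Ω] [CharP Ω p] {φ : R →+* Ω}
    {Y : Matrix G G Ω} {H : Subgroup G} (h : FM p φ Y H) :
    ∃ Z : Matrix G G (MvPolynomial (G × G) R), Y * Z.map (ev φ Y) = 1 ∧ Z.map (ev φ Y) * Y = 1 :=
  sorry
theorem integral_of_frob {R Ω : Type} [CommRing R] [CommRing Ω] (φ : R →+* Ω) (Y : Matrix G G Ω)
    (Ψ : Matrix G G R) (hΨ : Y.map (fun y => y ^ p) = Ψ.map φ * Y)
    (F : MvPolynomial (G × G) R) : φ.IsIntegralElem (ev φ Y F) := sorry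

/-! ## FP-3 (Trace.lean) -/
theorem fm_trace_one {R Ω : Type} [CommRing R] [CommRing Ω] [CharP Ω p] {φ : R →+* Ω}
    (hφ : Function.Injective φ) {Y : Matrix G G Ω} {H : Subgroup G} [Fintype H]
    (h : FM p φ Y H) :
    ∃ c : MvPolynomial (G × G) R, ∑ g : H, ev φ (actM (g : G) Y) c = 1 := sorry

/-! ## FP-4 (Transport.lean) -/
theorem fm_transport {R Ω Ω' : Type} [CommRing R] [Field Ω] [Field Ω'] [CharP Ω p] {φ : R →+* Ω}
    {φ' : R →+* Ω'} (hφ' : Function.Injective φ') {Y : Matrix G G Ω} {Y' : Matrix G G Ω'}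
    {H : Subgroup G} (h : FM p φ Y H) (hrel : Rel φ Y φ' Y') :
    FM p φ' Y' H ∧ Rel φ' Y' φ Y := sorry

/-! ## FP-5 (Patch.lean) -/
theorem fm_patch {R0 R1 R2 Ω : Type} [CommRing R0] [CommRing R1] [CommRing R2] [Field Ω]
    [CharP Ω p] {φ0 : R0 →+* Ω} {φ1 : R1 →+* Ω} {φ2 : R2 →+* Ω} (γ1 : R0 →+* R1) (γ2 : R0 →+* R2)
    (hγ1 : φ1.comp γ1 = φ0) (hγ2 : φ2.comp γ2 = φ0) (hφ0 : Function.Injective φ0)
    (hint : ∀ (r1 : R1) (r2 : R2), φ1 r1 = φ2 r2 → ∃ r0 : R0, φ0 r0 = φ1 r1)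
    {Y : Matrix G G Ω} {H1 H2 : Subgroup G} (h1 : FM p φ1 Y H1) (h2 : FM p φ2 Y H2) :
    FM p φ0 Y (H1 ⊔ H2) := sorry

/-! ## FP-6 (BaseChange.lean) -/
theorem rel_baseChange {R R' Ω S Ω2 : Type} [CommRing R] [CommRing R'] [CommRing Ω] [CommRing S]
    [CommRing Ω2] [CharP Ω p] (α : R →+* R') {φ : R →+* Ω} {Y : Matrix G G Ω} {H : Subgroup G}
    (h : FM p φ Y H) (ψ : R' →+* S) (hψ : Function.Injective ψ) (YS : Matrix G G S)
    (hS : Rel φ Y (ψ.comp α) YS)
    (hδ : ∀ g ∈ H, ∃ δ : S →+* S, δ.comp ψ = ψ ∧ YS.map δ = actM g YS)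
    (φ2 : R' →+* Ω2) (Y2 : Matrix G G Ω2) (h2 : Rel φ Y (φ2.comp α) Y2) :
    Rel ψ YS φ2 Y2 := sorry
theorem fm_baseChange {R R' Ω S : Type} [CommRing R] [CommRing R'] [CommRing Ω] [CommRing S]
    [CharP Ω p] [Nontrivial S] (α : R →+* R') {φ : R →+* Ω} (hφ : Function.Injective φ)
    {Y : Matrix G G Ω} {H : Subgroup G}
    (h : FM p φ Y H) (ψ : R' →+* S) (YS : Matrix G G S)
    (hS : Rel φ Y (ψ.comp α) YS)
    (hδ : ∀ g ∈ H, ∃ δ : S →+* S, δ.comp ψ = ψ ∧ YS.map δ = actM g YS) :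
    FM p ψ YS H := sorry

/-! ## FP-7 (SplitField.lean) -/
theorem exists_field {R Ω : Type} [CommRing R] [Field Ω] {φ : R →+* Ω} {Y : Matrix G G Ω}
    {H : Subgroup G} (h : FM p φ Y H) :
    ∃ (L : Type) (_ : Field L) (φL : R →+* L) (YL : Matrix G G L) (incl : L →+* Ω),
      incl.comp φL = φ ∧ YL.map incl = Y ∧
      ∀ g ∈ H, ∃ δ : L →+* L, δ.comp φL = φL ∧ YL.map δ = actM g YL := sorry

/-! ## FP-8 (AS.lean): Artin-Schreier covers -/
theorem rel_poly_as {E Ω Ω' : Type} [CommRing E] [Nontrivial E] [CommRing Ω] [CommRing Ω']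
    {i : E →+* Ω} {j : E →+* Ω'} {g : E} {u : Ω} {u' : Ω'} (hu : u ^ p - u = i g)
    (hu' : u' ^ p - u' = j g)
    (hind : ∀ P : Polynomial E, P.natDegree < p → P.eval₂ i u = 0 → P = 0)
    (P : Polynomial E) (hP : P.eval₂ i u = 0) : P.eval₂ j u' = 0 := sorry
theorem rel_as {R E Ω Ω' : Type} [CommRing R] [CommRing E] [Nontrivial E] [CommRing Ω]
    [CommRing Ω'] (γ : R →+* E)
    {i : E →+* Ω} {j : E →+* Ω'} {g : E} {u : Ω} {u' : Ω'} (hu : u ^ p - u = i g)
    (hu' : u' ^ p - u' = j g)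
    (hind : ∀ P : Polynomial E, P.natDegree < p → P.eval₂ i u = 0 → P = 0) (τ : G)
    (C : Matrix G G E) :
    Rel (i.comp γ) (C.map i * Umat p τ u) (j.comp γ) (C.map j * Umat p τ u') := sorry
theorem fm_as {E Ω : Type} [CommRing E] [IsDomain E] [CharP E p] [Field Ω] [CharP Ω p]
    {i : E →+* Ω} (hi : Function.Injective i) {g : E} {u : Ω} (hu : u ^ p - u = i g)
    (hind : ∀ P : Polynomial E, P.natDegree < p → P.eval₂ i u = 0 → P = 0) (τ : G)
    (hτ : orderOf τ = p) : FM p i (Umat p τ u) (Subgroup.zpowers τ) := sorry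

/-! ## FP-9 (Indep.lean) -/
theorem indep_as {E F Ω : Type} [CommRing E] [IsDomain E] [Field F] [CharP F p] [Field Ω]
    (i : E →+* Ω) (hi : Function.Injective i) (h : E →+* LaurentSeries F)
    (hh : Function.Injective h) (gE : E) (g : Polynomial F) (hg : h gE = px F g)
    (hpos : 0 < g.natDegree) (hdvd : ¬ p ∣ g.natDegree) (u : Ω) (hu : u ^ p - u = i gE) :
    ∀ P : Polynomial E, P.natDegree < p → P.eval₂ i u = 0 → P = 0 := sorry
end FMsec

/-! ## FP-10 (LaurentMaps.lean): the maps `lm`, `c1`, `c2`, ... on generators -/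
theorem lm_coeff {k L : Type} [CommRing k] [CommRing L] (ι : k →+* L) (f : LaurentSeries k)
    (n : ℤ) : (lm ι f).coeff n = ι (f.coeff n) := sorry
theorem lm_px {k L : Type} [CommRing k] [CommRing L] (ι : k →+* L) (f : Polynomial k) :
    lm ι (px k f) = px L (f.map ι) := sorry
theorem lm_comp {k L M : Type} [CommRing k] [CommRing L] [CommRing M] (ι : k →+* L)
    (κ : L →+* M) : (lm κ).comp (lm ι) = lm (κ.comp ι) := sorry
theorem c1_single {k : Type} [Field k] : c1 k (HahnSeries.single 1 1) = t1 k := sorry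
theorem c2_single {k : Type} [Field k] : c2 k (HahnSeries.single 1 1) = t2 k := sorry
theorem iK_single {k : Type} [Field k] :
    iK k (HahnSeries.single 1 1) = iA k PowerSeries.X := sorry
theorem φ1_z1 {k : Type} [Field k] :
    φ1 k (z1 k) = iA k (PowerSeries.C (LaurentPolynomial.T 1)) := sorry
theorem φ2_w2 {k : Type} [Field k] :
    φ2 k (w2 k) = iA k (PowerSeries.C (LaurentPolynomial.T (-1))) := sorry
theorem φ2_c2 {k : Type} [Field k] : (φ2 k).comp (c2 k) = iK k := sorry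
theorem φ2_α2 {k : Type} [Field k] (a : ℕ) (c : k) : (φ2 k).comp (α2 k a c) = φ0 k a c := sorry
theorem φ1_β1 {k : Type} [Field k] : (φ1 k).comp (β1 k) = (θ k).comp (px k) := sorry
/-- two ring homomorphisms from `k((t))[X]` which agree on `k((t))` and on `X` -/
theorem kk_hom_ext {k S : Type} [Field k] [CommRing S] {f g : Polynomial (KK k) →+* S}
    (h1 : f.comp Polynomial.C = g.comp Polynomial.C) (h2 : f Polynomial.X = g Polynomial.X) :
    f = g := sorry

/-! ## FP-11 (Inter.lean): injectivity and intersection -/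
theorem φ1_injective (k : Type) [Field k] : Function.Injective (φ1 k) := sorry
theorem φ2_injective (k : Type) [Field k] : Function.Injective (φ2 k) := sorry
theorem φ0_injective (k : Type) [Field k] (a : ℕ) (c : k) : Function.Injective (φ0 k a c) := sorry
theorem inter {k : Type} [Field k] (a : ℕ) (c : k) (r1 : R1 k) (r2 : R2 k)
    (h : φ1 k r1 = φ2 k r2) : ∃ q : Polynomial (KK k), φ0 k a c q = φ1 k r1 := sorry

/-! ## FP-12 (Factor.lean): factorization -/
theorem factorization {G k : Type} [Fintype G] [DecidableEq G] [Field k]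
    (M : Matrix G G (A0 k)) :
    ∃ A1 A2 : Matrix G G (Pk k), IsUnit A1 ∧ IsUnit A2 ∧
      A2.map (a2 k) * (1 + (PowerSeries.X : A0 k) • M) = A1.map (a1 k) := sorry

/-! ## FP-13 (Interp.lean): the interpolating polynomial, and the Artin-Schreier root -/
theorem exists_poly {p : ℕ} [Fact p.Prime] {k : Type} [Field k] (f1 f2 : Polynomial k) (a B : ℕ)
    (ha : 0 < a) :
    ∃ g : Polynomial (KK k), 0 < g.natDegree ∧ ¬ p ∣ g.natDegree ∧
      (∃ s : Pk k, α1 k a 0 g = β1 k f1 + algebraMap (Pk k) (R1 k) (PowerSeries.X ^ B * s)) ∧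
      ∃ s : Pk k, α1 k 1 1 g = β1 k f2 + algebraMap (Pk k) (R1 k) (PowerSeries.X ^ B * s) :=
  sorry
theorem exists_eps {p : ℕ} [Fact p.Prime] {k : Type} [Field k] [CharP k p] (B : ℕ) (hB : 0 < B)
    (s : Pk k) : ∃ e : Pk k,
      (PowerSeries.X ^ B * e) ^ p - PowerSeries.X ^ B * e = PowerSeries.X ^ B * s := sorry

/-! ## FP-14 (Conj.lean): conjugation by a matrix over `k((v))` -/
theorem conj_estimate {G k : Type} [Fintype G] [DecidableEq G] [Field k]
    (C : Matrix G G (LaurentSeries k)) (hC : IsUnit C) :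
    ∃ m : ℕ, ∀ M : Matrix G G (A0 k), ∃ M' : Matrix G G (A0 k),
      C.map (θ k) * ((PowerSeries.X : A0 k) ^ m • M).map (iA k) * (C⁻¹).map (θ k) =
        ((PowerSeries.X : A0 k) • M').map (iA k) := sorry

/-! ## FP-15 (HomE1.lean) -/
theorem exists_e1 {k L : Type} [Field k] [Field L] (ι : k →+* L) (y : L)
    (hy : Function.Injective (Polynomial.eval₂RingHom ι y)) :
    ∃ e : R1 k →+* LaurentSeries L, Function.Injective e ∧ e.comp (c1 k) = lm ι ∧
      e (z1 k) = HahnSeries.C y * HahnSeries.single 1 1 ∧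
      ∀ δ : L →+* L, δ.comp ι = ι → δ y = y → (lm δ).comp e = e := sorry

/-! ## FP-16 (HomE2.lean) -/
theorem exists_e2 {k L : Type} [Field k] [Field L] (ι : k →+* L) (y : L)
    (hy : Function.Injective (Polynomial.eval₂RingHom ι y)) (a : ℕ) (ha : 0 < a) :
    ∃ e : R2 k →+* LaurentSeries L, Function.Injective e ∧ e.comp (c2 k) = lm ι ∧
      e (w2 k) * (1 + HahnSeries.C y * HahnSeries.single 1 1 ^ 2) = HahnSeries.single 1 1 ^ a ∧
      ∀ δ : L →+* L, δ.comp ι = ι → δ y = y → (lm δ).comp e = e := sorry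

/-! ## FP-17 (HomNu.lean) -/
theorem exists_nu {G k : Type} [Fintype G] [DecidableEq G] [Field k]
    (C : Matrix G G (LaurentSeries k)) (hC : IsUnit C) : ∃ N : ℕ, ∀ B : ℕ, 0 < B →
      ∃ ν : R2 k →+* Om k, ν.comp (c2 k) = iK k ∧
        ν (w2 k) * (1 - φ1 k (t1 k ^ (N + B) * z1 k)) = - φ1 k (t1 k) ∧
        ∀ A2 : Matrix G G (Pk k), IsUnit A2 → ∃ (D0 : Matrix G G (KK k)) (M : Matrix G G (A0 k)),
          IsUnit D0 ∧
          (D0⁻¹).map (iK k) * (A2.map (algebraMap (Pk k) (R2 k)) * C.map (θ2 k)).map ν =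
            (1 + (PowerSeries.X : A0 k) ^ B • M).map (iA k) := sorry

/-! ## FP-18 (HomInf.lean) -/
theorem exists_h0 {k : Type} [Field k] :
    ∃ h : R2 k →+* LaurentSeries (KK k), Function.Injective h ∧ h.comp (c2 k) = HahnSeries.C ∧
      h (w2 k) = HahnSeries.single 1 1 := sorry
theorem exists_hA {k : Type} [Field k] (a : ℕ) :
    ∃ h : R2 k →+* LaurentSeries (KK k), h.comp (c2 k) = HahnSeries.C ∧
      h (w2 k) = HahnSeries.C ((HahnSeries.single (1 : ℤ) (1 : k) : KK k) ^ a) *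
        (HahnSeries.single (1 : ℤ) (1 : KK k) : LaurentSeries (KK k)) := sorry
theorem exists_hB {k : Type} [Field k] :
    ∃ h : R2 k →+* LaurentSeries (KK k), h.comp (c2 k) = HahnSeries.C ∧
      h (w2 k) * (1 - (HahnSeries.single (1 : ℤ) (1 : KK k) : LaurentSeries (KK k))) =
        HahnSeries.C (HahnSeries.single (1 : ℤ) (1 : k) : KK k) *
          (HahnSeries.single (1 : ℤ) (1 : KK k) : LaurentSeries (KK k)) := sorry

section descent
variable {p : ℕ} [Fact p.Prime] {G : Type} [Group G] [Fintype G] [DecidableEq G]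

/-! ## FP-19 (GeomExt.lean) -/
theorem pcov_baseChange {F F' : Type} [Field F] [Field F'] [CharP F p] (j : F →+* F') {τ : G}
    {H : Subgroup G} (h : PCov p F τ H) : PCov p F' τ H := sorry

/-! ## FP-20 (Rational.lean) -/
theorem rational_coeffs {k K : Type} [Field k] [Field K] [Algebra k K] [CharP K p]
    (C : Matrix G G (LaurentSeries K)) (A B : Matrix G G (Polynomial K))
    (h : C = A.map (px K) * C.map (fun x => x ^ p) * B.map (px K)) :
    ∃ S : Finset K, ∀ R : Subalgebra k K, (S : Set K) ⊆ R → ∀ i j n, (C i j).coeff n ∈ R := sorry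

/-! ## FP-21 (Prim.lean) -/
theorem exists_prim {K Ω : Type} [Field K] [CharP K p] [Field Ω] {φ : Polynomial K →+* Ω}
    (hφ : Function.Injective φ) {Y : Matrix G G Ω} {H : Subgroup G} [Fintype H]
    (h : FM p φ Y H) :
    ∃ (Θ : MvPolynomial (G × G) (Polynomial K)) (r A B : Polynomial (Polynomial K))
      (q : G → G → Polynomial (Polynomial K)) (d e : Polynomial K),
      r.Monic ∧ Irreducible r ∧ d ≠ 0 ∧ e ≠ 0 ∧
      r.map φ = ∏ g : H, (Polynomial.X - Polynomial.C (ev φ (actM (g : G) Y) Θ)) ∧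
      (∀ i j, φ d * Y i j = (q i j).eval₂ φ (ev φ Y Θ)) ∧
      A * r + B * Polynomial.derivative r = Polynomial.C e := sorry

/-! ## FP-22 (Specialize.lean) -/
theorem fm_specialize {A1 Ω1 Ω2 k : Type} [CommRing A1] [Field k] [CharP k p] [CommRing Ω1]
    [Field Ω2] (μ : A1 →+* Polynomial k) {φ1 : A1 →+* Ω1} {φ2 : Polynomial k →+* Ω2}
    (hφ2 : Function.Injective φ2) {Y1 : Matrix G G Ω1} {Y2 : Matrix G G Ω2} {H : Subgroup G}
    [Fintype H] (hrel : Rel φ1 Y1 (φ2.comp μ) Y2)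
    (hsym : ∀ g ∈ H, ∀ F : MvPolynomial (G × G) A1, ev φ1 Y1 F = 0 → ev φ1 (actM g Y1) F = 0)
    (hunit : IsUnit Y2)
    (hfrob : ∃ Ψ : Matrix G G (Polynomial k), IsUnit Ψ ∧
      Y2.map (fun y => y ^ p) = Ψ.map φ2 * Y2)
    (Θ : MvPolynomial (G × G) A1) (r A B : Polynomial A1) (q : G → G → Polynomial A1) (d e : A1)
    (hr1 : r.Monic)
    (hr2 : r.map φ1 = ∏ g : H, (Polynomial.X - Polynomial.C (ev φ1 (actM (g : G) Y1) Θ)))
    (hq : ∀ i j, φ1 d * Y1 i j = (q i j).eval₂ φ1 (ev φ1 Y1 Θ))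
    (hAB : A * r + B * Polynomial.derivative r = Polynomial.C e)
    (hd : μ d ≠ 0) (he : μ e ≠ 0) (hirr : Irreducible (r.map μ)) :
    FM p φ2 Y2 H := sorry

/-! ## FP-23 (BN.lean) -/
theorem bertini_noether {k K : Type} [Field k] [IsAlgClosed k] [Field K] [IsAlgClosed K]
    [Algebra k K] (r : Polynomial (Polynomial K)) (hm : r.Monic) (hr : Irreducible r) :
    ∃ S : Finset K, ∀ R : Subalgebra k K, (S : Set K) ⊆ R →
      ∀ rR : Polynomial (Polynomial R),
        rR.map (Polynomial.mapRingHom (R.val : R →+* K)) = r →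
        ∀ l : R →ₐ[k] k, Irreducible (rR.map (Polynomial.mapRingHom (l : R →+* k))) := sorry

/-! ## FP-24 (Point.lean) -/
theorem exists_point {k K : Type} [Field k] [IsAlgClosed k] [Field K] [Algebra k K]
    (S : Finset K) (x : K) (hx : x ∈ Algebra.adjoin k (S : Set K)) (hx0 : x ≠ 0) :
    ∃ l : Algebra.adjoin k (S : Set K) →ₐ[k] k, l ⟨x, hx⟩ ≠ 0 := sorry
end descent

/-! ## FP-25 (LocalGlobal.lean) -/
theorem local_global {k L Ω : Type} [Field k] [IsAlgClosed k] [Field L] [Algebra (RatFunc k) L]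
    [FiniteDimensional (RatFunc k) L] [IsGalois (RatFunc k) L] [Field Ω]
    (i : LaurentSeries k →+* Ω) (j : L →+* Ω)
    (hj : ∀ r : RatFunc k, j (algebraMap (RatFunc k) L r) = i (rx k r)) (B : ValuationSubring Ω)
    (hB : ∀ f : LaurentSeries k, i f ∈ B ↔
      ∃ g : PowerSeries k, algebraMap (PowerSeries k) (LaurentSeries k) g = f)
    (σ : L ≃ₐ[RatFunc k] L) :
    σ • B.comap j = B.comap j ↔ ∀ y : L, j y ∈ Set.range i → σ y = y := sorry

section global
variable {p : ℕ} [Fact p.Prime] {G : Type} [Group G] [Fintype G] [DecidableEq G]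

/-! ## FP-26 (Integral.lean) -/
theorem exists_Y {k L : Type} [Field k] [IsAlgClosed k] [Field L] [Algebra (RatFunc k) L]
    [FiniteDimensional (RatFunc k) L] [IsGalois (RatFunc k) L] (H : Subgroup G)
    (f : H ≃* (L ≃ₐ[RatFunc k] L))
    (hunr : ∀ A : ValuationSubring L, A ≠ ⊤ →
      (∀ c : k, algebraMap (RatFunc k) L (algebraMap k (RatFunc k) c) ∈ A) → tX k L ∈ A →
      ∀ σ : L ≃ₐ[RatFunc k] L, σ • A = A → σ = 1) :
    ∃ Y : Matrix G G L, IsUnit Y ∧ (∀ i j, Y i j ∈ intSub k L) ∧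
      (∀ i j, Y⁻¹ i j ∈ intSub k L) ∧ ∀ h : H, Y.map (f h) = actM (h : G) Y := sorry

/-! ## FP-27 (FMofY.lean) -/
theorem fm_of_Y {k L : Type} [Field k] [CharP k p] [Field L] [Algebra (RatFunc k) L]
    [FiniteDimensional (RatFunc k) L] [IsGalois (RatFunc k) L] (H : Subgroup G)
    (f : H ≃* (L ≃ₐ[RatFunc k] L)) (Y : Matrix G G L) (hY : IsUnit Y)
    (h1 : ∀ i j, Y i j ∈ intSub k L) (h2 : ∀ i j, Y⁻¹ i j ∈ intSub k L)
    (h3 : ∀ h : H, Y.map (f h) = actM (h : G) Y) : FM p (pk k L) Y H := sorry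

/-! ## FP-28 (LocalAS.lean) -/
theorem exists_local {k L : Type} [Field k] [IsAlgClosed k] [CharP k p] [Field L]
    [Algebra (RatFunc k) L] [FiniteDimensional (RatFunc k) L] [IsGalois (RatFunc k) L]
    (τ : L ≃ₐ[RatFunc k] L) (hτ : orderOf τ = p) (A : ValuationSubring L) (hA : A ≠ ⊤)
    (hAk : ∀ c : k, algebraMap (RatFunc k) L (algebraMap k (RatFunc k) c) ∈ A) (hX : tX k L ∉ A)
    (hst : ∀ σ : L ≃ₐ[RatFunc k] L, σ • A = A ↔ σ ∈ Subgroup.zpowers τ) :
    ∃ (Ω : Type) (_ : Field Ω) (i : LaurentSeries k →+* Ω) (j : L →+* Ω) (f : Polynomial k)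
      (u : Ω), (∀ r : RatFunc k, j (algebraMap (RatFunc k) L r) = i (rx k r)) ∧
      0 < f.natDegree ∧ ¬ p ∣ f.natDegree ∧ u ^ p - u = i (px k f) ∧
      ∀ y : L, ∃ P : Polynomial (LaurentSeries k), j y = P.eval₂ i u ∧
        j (τ y) = P.eval₂ i (u + 1) := sorry

/-! ## FP-29 (PCovOfCover.lean) -/
theorem pcov_of_realizable {k : Type} [Field k] [IsAlgClosed k] [CharP k p] (τ : G)
    (hτ : orderOf τ = p) (H : Subgroup G) (hH : τ ∈ H)
    (h : RealAct k ((Subgroup.zpowers τ).subgroupOf H)) : PCov p k τ H := sorry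

/-! ## FP-30 (CoverOfPCov.lean) -/
theorem realAct_of_pcov {k : Type} [Field k] [IsAlgClosed k] [CharP k p] (τ : G)
    (hτ : orderOf τ = p) (h : PCov p k τ ⊤) : RealAct k (Subgroup.zpowers τ) := sorry
end global

end Pool.Agent.Helper54.FP
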