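import Pool.Agent.Helper54.FP.Inst
import Pool.Agent.Helper54.FP.LaurentMaps

/-!
# Definitions for patching with tame inertia

The second factor of the inertia group is a cyclic group of order prime to `p`: a variable `s` with `s^m = X`,
`v = 1/s`; the generator `β` acts by `s ↦ ζ s`.
-/

set_option autoImplicit false

namespace Pool.Agent.Helper54.FP

/-- `X ↦ X^m` -/
noncomputable def ex (F : Type) [CommRing F] (m : ℕ) : Polynomial F →+* Polynomial F :=
  Polynomial.eval₂RingHom Polynomial.C (Polynomial.X ^ m)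

/-- `X ↦ c X` -/
noncomputable def sc {F : Type} [CommRing F] (c : F) : Polynomial F →+* Polynomial F :=
  Polynomial.eval₂RingHom Polynomial.C (Polynomial.C c * Polynomial.X)

/-- `F[X] → F((v))`, `X ↦ v^(-m)` -/
noncomputable def pxm (F : Type) [CommRing F] (m : ℕ) : Polynomial F →+* LaurentSeries F :=
  (px F).comp (ex F m)

theorem isUnit_sg {F : Type} [CommRing F] (ζ : Fˣ) :
    IsUnit (((algebraMap (PowerSeries F) (LaurentSeries F)).comp
      (PowerSeries.rescale ((ζ⁻¹ : Fˣ) : F))) PowerSeries.X) := by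
  rw [RingHom.comp_apply, PowerSeries.rescale_X, map_mul]
  exact ((ζ⁻¹.isUnit.map PowerSeries.C).map _).mul (isUnit_ofX F)

/-- `F((v)) → F((v))`, `v ↦ ζ⁻¹ v` -/
noncomputable def sg {F : Type} [CommRing F] (ζ : Fˣ) : LaurentSeries F →+* LaurentSeries F :=
  lK F ((algebraMap (PowerSeries F) (LaurentSeries F)).comp
    (PowerSeries.rescale ((ζ⁻¹ : Fˣ) : F))) (isUnit_sg ζ)

/-- covers of the affine line over `F` with group `H` and with local group `⟨τ, β⟩` at infinity: over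
`F((v))`, `v^(-m) = X`, the matrix `Y` is `C U(u)` with `u^p - u = g(1/v)`, and `v ↦ ζ⁻¹ v`, `u ↦ l u` acts
on `Y` as `β` -/
def PCovT (p : ℕ) {G : Type} [Group G] [Fintype G] [DecidableEq G] (F : Type) [Field F] (m : ℕ)
    (ζ : Fˣ) (l : ℕ) (τ β : G) (H : Subgroup G) : Prop :=
  ∃ (g : Polynomial F) (C : Matrix G G (LaurentSeries F)) (Ω : Type) (_ : Field Ω)
    (i : LaurentSeries F →+* Ω) (u : Ω),
    0 < g.natDegree ∧ ¬ p ∣ g.natDegree ∧ sc (ζ : F) g = (l : Polynomial F) * g ∧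
    IsUnit C ∧ C.map (sg ζ) = actM β C ∧ u ^ p - u = i (px F g) ∧
    FM p (i.comp (pxm F m)) (C.map i * Umat p τ u) H

section rings
variable (k : Type) [Field k]

/-- the unit `c T^n` -/
noncomputable def uT (c : kˣ) (n : ℤ) : (LaurentPolynomial k)ˣ where
  val := LaurentPolynomial.C (c : k) * LaurentPolynomial.T n
  inv := LaurentPolynomial.C ((c⁻¹ : kˣ) : k) * LaurentPolynomial.T (-n)
  val_inv := by
    rw [mul_mul_mul_comm, ← map_mul, ← LaurentPolynomial.T_add]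
    simp
  inv_val := by
    rw [mul_mul_mul_comm, ← map_mul, ← LaurentPolynomial.T_add]
    simp

/-- `z ↦ z^m` on `k[z,1/z]⟦t⟧` -/
noncomputable def pwA (m : ℕ) : A0 k →+* A0 k :=
  PowerSeries.map (LaurentPolynomial.eval₂ LaurentPolynomial.C (uT k 1 m))

/-- `z ↦ ζ z` on `k[z,1/z]⟦t⟧` -/
noncomputable def sA (ζ : kˣ) : A0 k →+* A0 k :=
  PowerSeries.map (LaurentPolynomial.eval₂ LaurentPolynomial.C (uT k ζ 1))

/-- `z ↦ z^m` on `k[z]⟦t⟧` -/
noncomputable def pwP (m : ℕ) : Pk k →+* Pk k := PowerSeries.map (ex k m)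

/-- `w ↦ ζ⁻¹ w` on `k[w]⟦t⟧` -/
noncomputable def sP (ζ : kˣ) : Pk k →+* Pk k := PowerSeries.map (sc ((ζ⁻¹ : kˣ) : k))

theorem isUnit_pw1 (m : ℕ) :
    IsUnit (((algebraMap (Pk k) (R1 k)).comp (pwP k m)) PowerSeries.X) := by
  rw [RingHom.comp_apply, pwP, PowerSeries.map_X]
  exact isUnit_R1_X k

/-- `z ↦ z^m` on `k[z]⟦t⟧[1/t]` -/
noncomputable def pw1 (m : ℕ) : R1 k →+* R1 k :=
  IsLocalization.Away.lift (PowerSeries.X : Pk k) (g := (algebraMap (Pk k) (R1 k)).comp (pwP k m))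
    (isUnit_pw1 k m)

theorem isUnit_pw2 (m : ℕ) : IsUnit (((algebraMap (Pk k) (R2 k)).comp (pwP k m))
    (PowerSeries.X * PowerSeries.C Polynomial.X)) := by
  rw [RingHom.comp_apply, pwP, map_mul, map_mul, PowerSeries.map_X, PowerSeries.map_C]
  refine (isUnit_R2 k).1.mul ?_
  have : ex k m Polynomial.X = Polynomial.X ^ m := by simp [ex]
  rw [this, map_pow, map_pow]
  exact (isUnit_R2 k).2.pow m

/-- `w ↦ w^m` on `k[w]⟦t⟧[1/t,1/w]` -/
noncomputable def pw2 (m : ℕ) : R2 k →+* R2 k :=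
  IsLocalization.Away.lift (PowerSeries.X * PowerSeries.C Polynomial.X : Pk k)
    (g := (algebraMap (Pk k) (R2 k)).comp (pwP k m)) (isUnit_pw2 k m)

theorem isUnit_s2 (ζ : kˣ) : IsUnit (((algebraMap (Pk k) (R2 k)).comp (sP k ζ))
    (PowerSeries.X * PowerSeries.C Polynomial.X)) := by
  rw [RingHom.comp_apply, sP, map_mul, map_mul, PowerSeries.map_X, PowerSeries.map_C]
  refine (isUnit_R2 k).1.mul ?_
  have : sc ((ζ⁻¹ : kˣ) : k) Polynomial.X = Polynomial.C ((ζ⁻¹ : kˣ) : k) * Polynomial.X := by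
    simp [sc]
  rw [this, map_mul, map_mul]
  exact (((ζ⁻¹.isUnit.map Polynomial.C).map PowerSeries.C).map (algebraMap (Pk k) (R2 k))).mul
    (isUnit_R2 k).2

/-- `w ↦ ζ⁻¹ w` on `k[w]⟦t⟧[1/t,1/w]` -/
noncomputable def s2 (ζ : kˣ) : R2 k →+* R2 k :=
  IsLocalization.Away.lift (PowerSeries.X * PowerSeries.C Polynomial.X : Pk k)
    (g := (algebraMap (Pk k) (R2 k)).comp (sP k ζ)) (isUnit_s2 k ζ)

/-- `k[y] → k[z]⟦t⟧[1/t]`, `y ↦ z/t^m` -/
noncomputable def β1m (m : ℕ) : Polynomial k →+* R1 k :=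
  Polynomial.eval₂RingHom ((c1 k).comp HahnSeries.C)
    (z1 k * (((isUnit_R1_X k).unit⁻¹ : (R1 k)ˣ) : R1 k) ^ m)

/-- a unit of `k` as a unit of `k((t))` -/
noncomputable def uK (ζ : kˣ) : (KK k)ˣ := Units.map (HahnSeries.C : k →+* KK k).toMonoidHom ζ

end rings

/-- `k(X) → k((v))`, `X ↦ v^(-m)` -/
noncomputable def rxm (k : Type) [Field k] (m : ℕ) (hm : 0 < m) : RatFunc k →+* LaurentSeries k :=
  RatFunc.liftRingHom (pxm k m) (by
    intro q hq
    rw [Submonoid.mem_comap, mem_nonZeroDivisors_iff_ne_zero]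
    rw [mem_nonZeroDivisors_iff_ne_zero] at hq
    intro h
    rw [pxm, RingHom.comp_apply] at h
    have h1 := px_injective k (h.trans (map_zero _).symm)
    have h2 : ex k m q = Polynomial.expand k m q := by
      rw [ex, Polynomial.coe_eval₂RingHom, Polynomial.expand_eq_sum, Polynomial.eval₂_eq_sum]
    rw [h2, Polynomial.expand_eq_zero hm] at h1
    exact hq h1)

end Pool.Agent.Helper54.FP
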