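import Pool.Agent.Helper54.FP.TDefs
import Pool.Agent.Helper54.PW.Basic

set_option autoImplicit false
set_option linter.unusedVariables false
set_option linter.unusedSectionVars false
open scoped Pointwise
open Pool.Agent.Helper54.PW

namespace Pool.Agent.Helper54.FP

/-! ## TJ-01 (Lift.lean) -/
theorem exists_lift {k : Type} [Field k] (f : A0 k →+* A0 k) (hf : Function.Injective f) :
    ∃ F : Om k →+* Om k, F.comp (iA k) = (iA k).comp f := sorry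
theorem pwA_injective {k : Type} [Field k] {m : ℕ} (hm : 0 < m) :
    Function.Injective (pwA k m) := sorry
theorem sA_injective {k : Type} [Field k] (ζ : kˣ) : Function.Injective (sA k ζ) := sorry
theorem pwA_a1 {k : Type} [Field k] (m : ℕ) (b : Pk k) :
    pwA k m (a1 k b) = a1 k (pwP k m b) := sorry
theorem pwA_a2 {k : Type} [Field k] (m : ℕ) (b : Pk k) :
    pwA k m (a2 k b) = a2 k (pwP k m b) := sorry
theorem pwA_X {k : Type} [Field k] (m : ℕ) : pwA k m PowerSeries.X = PowerSeries.X := sorry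
theorem sA_X {k : Type} [Field k] (ζ : kˣ) : sA k ζ PowerSeries.X = PowerSeries.X := sorry
theorem lift_pw {k : Type} [Field k] {m : ℕ} (hm : 0 < m) {F : Om k →+* Om k}
    (hF : F.comp (iA k) = (iA k).comp (pwA k m)) :
    F.comp (φ1 k) = (φ1 k).comp (pw1 k m) ∧ F.comp (φ2 k) = (φ2 k).comp (pw2 k m) ∧
      F.comp (iK k) = iK k := sorry
theorem lift_s {k : Type} [Field k] {ζ : kˣ} {F : Om k →+* Om k}
    (hF : F.comp (iA k) = (iA k).comp (sA k ζ)) :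
    F.comp (φ2 k) = (φ2 k).comp (s2 k ζ) ∧ F.comp (θ k) = (θ k).comp (sg ζ) ∧
      F.comp (iK k) = iK k := sorry

/-! ## TJ-02 (Inv.lean): invariants -/
theorem inv_A0 {k : Type} [Field k] {m : ℕ} (hm : 0 < m) {ζ : kˣ}
    (hζ : IsPrimitiveRoot (ζ : k) m) (a : A0 k) (ha : sA k ζ a = a) : ∃ a', pwA k m a' = a := sorry
theorem inv_R2 {k : Type} [Field k] {m : ℕ} (hm : 0 < m) {ζ : kˣ}
    (hζ : IsPrimitiveRoot (ζ : k) m) (r : R2 k) (hr : s2 k ζ r = r) : ∃ r', pw2 k m r' = r := sorry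
theorem s2_pw2 {k : Type} [Field k] {m : ℕ} {ζ : kˣ} (hζ : (ζ : k) ^ m = 1) :
    (s2 k ζ).comp (pw2 k m) = pw2 k m := sorry

/-! ## TJ-03 (SgMaps.lean): the maps on generators -/
theorem sg_coeff {F : Type} [CommRing F] (ζ : Fˣ) (f : LaurentSeries F) (n : ℤ) :
    (sg ζ f).coeff n = ((ζ ^ (-n) : Fˣ) : F) * f.coeff n := sorry
theorem sg_C {F : Type} [CommRing F] (ζ : Fˣ) (a : F) :
    sg ζ (HahnSeries.C a) = HahnSeries.C a := sorry
theorem sg_single {F : Type} [CommRing F] (ζ : Fˣ) (n : ℤ) (a : F) :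
    sg ζ (HahnSeries.single n a) = HahnSeries.single n (((ζ ^ (-n) : Fˣ) : F) * a) := sorry
theorem sg_px {F : Type} [CommRing F] (ζ : Fˣ) (g : Polynomial F) :
    sg ζ (px F g) = px F (sc (ζ : F) g) := sorry
theorem sg_pxm {F : Type} [CommRing F] {m : ℕ} {ζ : Fˣ} (hζ : (ζ : F) ^ m = 1)
    (g : Polynomial F) : sg ζ (pxm F m g) = pxm F m g := sorry
theorem lm_sg {F L : Type} [CommRing F] [CommRing L] (ι : F →+* L) (ζ : Fˣ)
    (f : LaurentSeries F) : lm ι (sg ζ f) = sg (Units.map ι.toMonoidHom ζ) (lm ι f) := sorry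
theorem pxm_injective (F : Type) [CommRing F] {m : ℕ} (hm : 0 < m) :
    Function.Injective (pxm F m) := sorry
theorem lm_pxm {k L : Type} [CommRing k] [CommRing L] (ι : k →+* L) (m : ℕ) (f : Polynomial k) :
    lm ι (pxm k m f) = pxm L m (f.map ι) := sorry
theorem s2_c2 {k : Type} [Field k] (ζ : kˣ) : (s2 k ζ).comp (c2 k) = c2 k := sorry
theorem s2_w2 {k : Type} [Field k] (ζ : kˣ) :
    s2 k ζ (w2 k) = c2 k (HahnSeries.C ((ζ⁻¹ : kˣ) : k)) * w2 k := sorry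
theorem s2_θ2 {k : Type} [Field k] (ζ : kˣ) : (s2 k ζ).comp (θ2 k) = (θ2 k).comp (sg ζ) := sorry
theorem s2_α2 {k : Type} [Field k] (ζ : kˣ) (g : Polynomial (KK k)) :
    s2 k ζ (α2 k 1 0 g) = α2 k 1 0 (sc (uK k ζ : KK k) g) := sorry
theorem pw1_c1 {k : Type} [Field k] (m : ℕ) : (pw1 k m).comp (c1 k) = c1 k := sorry
theorem pw1_t1 {k : Type} [Field k] (m : ℕ) : pw1 k m (t1 k) = t1 k := sorry
theorem pw1_z1 {k : Type} [Field k] (m : ℕ) : pw1 k m (z1 k) = z1 k ^ m := sorry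
theorem pw1_β1m {k : Type} [Field k] (m : ℕ) :
    (pw1 k m).comp (β1m k m) = (β1 k).comp (ex k m) := sorry
theorem pw1_α1 {k : Type} [Field k] (m : ℕ) :
    (pw1 k m).comp (α1 k m 0) = (α1 k 1 0).comp (ex (KK k) m) := sorry
theorem pw2_c2 {k : Type} [Field k] (m : ℕ) : (pw2 k m).comp (c2 k) = c2 k := sorry
theorem pw2_w2 {k : Type} [Field k] (m : ℕ) : pw2 k m (w2 k) = w2 k ^ m := sorry
theorem pw2_α2 {k : Type} [Field k] (m : ℕ) :
    (pw2 k m).comp (α2 k m 0) = (α2 k 1 0).comp (ex (KK k) m) := sorry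

/-! ## TJ-04 (E1T.lean) -/
theorem exists_e1T {k L : Type} [Field k] [Field L] (ι : k →+* L) (y : L)
    (hy : Function.Injective (Polynomial.eval₂RingHom ι y)) (n : ℕ) (hn : 0 < n) :
    ∃ e : R1 k →+* LaurentSeries L, Function.Injective e ∧ e.comp (c1 k) = lm ι ∧
      e (z1 k) = HahnSeries.C y * HahnSeries.single 1 1 ^ n ∧
      ∀ δ : L →+* L, δ.comp ι = ι → δ y = y → (lm δ).comp e = e := sorry

/-! ## TJ-05 (E2T.lean) -/
theorem exists_e2T {k L : Type} [Field k] [Field L] (ι : k →+* L) (y : L)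
    (hy : Function.Injective (Polynomial.eval₂RingHom ι y)) (a n : ℕ) (ha : 0 < a) (hn : 0 < n)
    (c : k) (hc : c ≠ 0) :
    ∃ e : R2 k →+* LaurentSeries L, Function.Injective e ∧ e.comp (c2 k) = lm ι ∧
      e (w2 k) * (HahnSeries.C (ι c) + HahnSeries.C y * HahnSeries.single 1 1 ^ n) =
        HahnSeries.single 1 1 ^ a ∧
      ∀ δ : L →+* L, δ.comp ι = ι → δ y = y → (lm δ).comp e = e := sorry

/-! ## TJ-06 (NuT.lean) -/
theorem exists_nuT {G k : Type} [Fintype G] [DecidableEq G] [Field k]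
    (C : Matrix G G (LaurentSeries k)) (hC : IsUnit C) (m : ℕ) (hm : (m : k) ≠ 0) :
    ∃ N : ℕ, ∀ B : ℕ, 0 < B → ∃ (ρ : Pk k) (ν : R2 k →+* Om k),
        ρ ^ m = 1 + PowerSeries.X ^ (N + B) * PowerSeries.C Polynomial.X ∧
        PowerSeries.constantCoeff ρ = 1 ∧ ν.comp (c2 k) = iK k ∧
        ν (w2 k) * φ1 k (algebraMap (Pk k) (R1 k) ρ) = φ1 k (t1 k) ∧
        ∀ A2 : Matrix G G (Pk k), IsUnit A2 → ∃ (D0 : Matrix G G (KK k)) (M : Matrix G G (A0 k)),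
          IsUnit D0 ∧
          (D0⁻¹).map (iK k) * (A2.map (algebraMap (Pk k) (R2 k)) * C.map (θ2 k)).map ν =
            (1 + (PowerSeries.X : A0 k) ^ B • M).map (iA k) := sorry

/-! ## TJ-07 (InfT.lean) -/
theorem exists_hAT {k : Type} [Field k] (a m : ℕ) (hm : 0 < m) :
    ∃ h : R2 k →+* LaurentSeries (KK k), h.comp (c2 k) = HahnSeries.C ∧
      h (w2 k) * (1 - (HahnSeries.single (1 : ℤ) (1 : KK k) : LaurentSeries (KK k)) ^ m) =
        HahnSeries.C ((HahnSeries.single (1 : ℤ) (1 : k) : KK k) ^ a) *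
          (HahnSeries.single (1 : ℤ) (1 : KK k) : LaurentSeries (KK k)) ^ m ∧
      ∀ ζ : kˣ, (ζ : k) ^ m = 1 → (sg (uK k ζ)).comp h = h := sorry
theorem exists_hBT {k : Type} [Field k] :
    ∃ h : R2 k →+* LaurentSeries (KK k), Function.Injective h ∧ h.comp (c2 k) = HahnSeries.C ∧
      h (w2 k) = HahnSeries.C (HahnSeries.single (1 : ℤ) (1 : k) : KK k) *
        (HahnSeries.single (1 : ℤ) (1 : KK k) : LaurentSeries (KK k)) ∧
      ∀ ζ : kˣ, (sg (uK k ζ)).comp h = h.comp (s2 k ζ) := sorry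

/-! ## TJ-08 (InterpT.lean) -/
theorem exists_polyT {p : ℕ} [Fact p.Prime] {k : Type} [Field k] [CharP k p] {m l : ℕ}
    (hm : 0 < m) {ζ : kˣ} (hζ : IsPrimitiveRoot (ζ : k) m) (f1 f2 : Polynomial k)
    (hf1 : 0 < f1.natDegree) (hf1p : ¬ p ∣ f1.natDegree)
    (hf1l : sc (ζ : k) f1 = (l : Polynomial k) * f1) (a B : ℕ) (ha : 0 < a) (ρ : Pk k)
    (hρ : ρ ^ m = 1 + PowerSeries.X ^ a * PowerSeries.C Polynomial.X)
    (hρ1 : PowerSeries.constantCoeff ρ = 1) :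
    ∃ g : Polynomial (KK k), 0 < g.natDegree ∧ ¬ p ∣ g.natDegree ∧
      sc (uK k ζ : KK k) g = (l : Polynomial (KK k)) * g ∧
      (∃ s : Pk k, α1 k 1 0 g = β1 k f1 + algebraMap (Pk k) (R1 k) (PowerSeries.X ^ B * s)) ∧
      ∃ s : Pk k, Polynomial.eval₂ (c1 k) (algebraMap (Pk k) (R1 k) ρ) g =
        β1 k f2 + algebraMap (Pk k) (R1 k) (PowerSeries.X ^ B * s) := sorry

section
variable {p : ℕ} [Fact p.Prime] {G : Type} [Group G] [Fintype G] [DecidableEq G]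

/-! ## TJ-09 (Equiv.lean) -/
theorem eps_equiv {k : Type} [Field k] [CharP k p] {ζ : kˣ} {l B : ℕ} (hB : 0 < B) (e s : A0 k)
    (he : (PowerSeries.X ^ B * e) ^ p - PowerSeries.X ^ B * e = PowerSeries.X ^ B * s)
    (hs : sA k ζ s = (l : A0 k) * s) :
    sA k ζ (PowerSeries.X ^ B * e) = (l : A0 k) * (PowerSeries.X ^ B * e) := sorry
theorem umat_conj {Ω : Type} [CommRing Ω] [CharP Ω p] {τ β : G} {l : ℕ} (hτ : τ ^ p = 1)
    (hl : τ * β = β * τ ^ l) (hlp : ¬ p ∣ l) (u : Ω) :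
    Umat p τ u * actM β (1 : Matrix G G Ω) =
      actM β (1 : Matrix G G Ω) * Umat p τ ((l : Ω) * u) := sorry

/-! ## TJ-10 (RegT.lean): the regular cover -/
theorem fm_reg {k : Type} [Field k] [CharP k p] {m l : ℕ} (hm : 0 < m) {ζ : kˣ}
    (hζ : IsPrimitiveRoot (ζ : k) m) {τ β : G} (hτ : orderOf τ = p) (hl : τ * β = β * τ ^ l)
    (hlp : ¬ p ∣ l) (C : Matrix G G (LaurentSeries k)) (hC : IsUnit C)
    (hCβ : C.map (sg ζ) = actM β C) (gE : R2 k) (hg : s2 k ζ gE = (l : R2 k) * gE) (u : Om k)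
    (hu : u ^ p - u = φ2 k gE)
    (hind : ∀ P : Polynomial (R2 k), P.natDegree < p → P.eval₂ (φ2 k) u = 0 → P = 0) :
    FM p ((φ2 k).comp (pw2 k m)) (C.map (θ k) * Umat p τ u) (Subgroup.closure {τ, β}) := sorry

/-! ## TJ-11 (GeomExtT.lean) -/
theorem pcovT_baseChange {F F' : Type} [Field F] [Field F'] [CharP F p] (j : F →+* F') {m l : ℕ}
    (hm : 0 < m) {ζ : Fˣ} {τ β : G} {H : Subgroup G} (h : PCovT p F m ζ l τ β H) :
    PCovT p F' m (Units.map j.toMonoidHom ζ) l τ β H := sorry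

/-! ## TJ-12 (RealActT.lean) -/
theorem realAct_of_pcovT {k : Type} [Field k] [IsAlgClosed k] [CharP k p] {m l : ℕ} (hm : 0 < m)
    {ζ : kˣ} (hζ : IsPrimitiveRoot (ζ : k) m) {τ β : G} (hτ : orderOf τ = p)
    (hl : τ * β = β * τ ^ l) (hlp : ¬ p ∣ l) (h : PCovT p k m ζ l τ β ⊤) :
    RealAct k (Subgroup.closure {τ, β}) := sorry

/-! ## TJ-13 (BridgeT.lean) -/
theorem pcovT_of_local {k L : Type} [Field k] [IsAlgClosed k] [CharP k p] [Field L]
    [Algebra (RatFunc k) L] [FiniteDimensional (RatFunc k) L] [IsGalois (RatFunc k) L]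
    (H : Subgroup G) (f : H ≃* (L ≃ₐ[RatFunc k] L))
    (hunr : ∀ A : ValuationSubring L, A ≠ ⊤ →
      (∀ c : k, algebraMap (RatFunc k) L (algebraMap k (RatFunc k) c) ∈ A) → tX k L ∈ A →
      ∀ σ : L ≃ₐ[RatFunc k] L, σ • A = A → σ = 1)
    {m l : ℕ} (hm : 0 < m) {ζ : kˣ} (hζ : (ζ : k) ^ m = 1) (τ β : H) (hτ : orderOf τ = p)
    (hl : τ * β = β * τ ^ l) (hlp : ¬ p ∣ l)
    {Ω : Type} [Field Ω] (i : LaurentSeries k →+* Ω) (j : L →+* Ω)
    (hj : ∀ r : RatFunc k, j (algebraMap (RatFunc k) L r) = i (rxm k m hm r)) (g : Polynomial k)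
    (hg : 0 < g.natDegree) (hgp : ¬ p ∣ g.natDegree) (hgl : sc (ζ : k) g = (l : Polynomial k) * g)
    (u : Ω) (hu : u ^ p - u = i (px k g))
    (hloc : ∀ y : L, ∃ P : Polynomial (LaurentSeries k), j y = P.eval₂ i u ∧
      j (f τ y) = P.eval₂ i (u + 1) ∧ j (f β y) = (P.map (sg ζ)).eval₂ i ((l : Ω) * u)) :
    PCovT p k m ζ l (τ : G) (β : G) H := sorry
end

end Pool.Agent.Helper54.FP
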